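import Pool.Agent.Helper97.P18.Core

set_option maxRecDepth 100000

namespace Pool.Agent.Helper97.P18


theorem c_40 :
    run 4535 2940 2749 = true ∧
    run 4539 3048 2850 = true ∧
    run 4541 2760 2581 = true ∧
    run 4544 1520 1422 = true ∧
    run 4547 3040 2843 = true ∧
    run 4548 1152 1078 = true ∧
    run 4556 1512 1415 = true ∧
    run 4571 2580 2414 = true ∧
    run 4575 2860 2677 = true ∧
    run 4583 2400 2247 = true ∧
    run 4590 1498 1403 = true ∧
    run 4592 1272 1192 = true ∧
    run 4595 2880 2697 = true ∧
    run 4597 1992 1866 = true ∧
    run 4607 2700 2529 = true ∧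
    run 4625 2962 2776 = true ∧
    run 4629 2680 2512 = true ∧
    run 4634 1260 1182 = true ∧
    run 4653 2344 2198 = true ∧
    run 4656 1464 1374 = true ∧
    run 4665 2808 2634 = true ∧
    run 4667 2772 2600 = true ∧
    run 4668 1152 1082 = true ∧
    run 4675 1940 1821 = true ∧
    run 4685 2902 2724 = true :=
  ⟨by decide +kernel, by decide +kernel, by decide +kernel, by decide +kernel,
    by decide +kernel, by decide +kernel, by decide +kernel, by decide +kernel,
    by decide +kernel, by decide +kernel, by decide +kernel, by decide +kernel,
    by decide +kernel, by decide +kernel, by decide +kernel, by decide +kernel,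
    by decide +kernel, by decide +kernel, by decide +kernel, by decide +kernel,
    by decide +kernel, by decide +kernel, by decide +kernel, by decide +kernel,
    by decide +kernel⟩

end Pool.Agent.Helper97.P18
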