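import Pool.Agent.Helper97.P18.Core

set_option maxRecDepth 100000

namespace Pool.Agent.Helper97.P18


theorem c_41 :
    run 4688 1120 1052 = true ∧
    run 4692 1440 1352 = true ∧
    run 4695 2620 2460 = true ∧
    run 4696 960 902 = true ∧
    run 4712 1436 1349 = true ∧
    run 4724 1424 1338 = true ∧
    run 4730 1428 1342 = true ∧
    run 4734 1426 1341 = true ∧
    run 4743 2272 2136 = true ∧
    run 4747 1892 1779 = true ∧
    run 4750 840 791 = true ∧
    run 4751 2836 2666 = true ∧
    run 4753 1296 1219 = true ∧
    run 4760 1200 1129 = true ∧
    run 4764 1408 1325 = true ∧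
    run 4768 736 693 = true ∧
    run 4770 1408 1325 = true ∧
    run 4772 1280 1205 = true ∧
    run 4782 1320 1243 = true ∧
    run 4790 1398 1316 = true ∧
    run 4795 1512 1424 = true ∧
    run 4796 1392 1311 = true ∧
    run 4798 720 679 = true ∧
    run 4799 2788 2624 = true ∧
    run 4834 864 815 = true ∧
    run 4835 2752 2592 = true ∧
    run 4838 1000 943 = true ∧
    run 4840 912 860 = true ∧
    run 4844 1176 1109 = true ∧
    run 4848 1088 1026 = true ∧
    run 4852 864 815 = true ∧
    run 4862 1288 1215 = true ∧
    run 4864 904 853 = true ∧
    run 4869 2718 2563 = true ∧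
    run 4880 1352 1276 = true ∧
    run 4897 1584 1495 = true ∧
    run 4908 1056 997 = true ∧
    run 4918 704 666 = true ∧
    run 4922 1260 1190 = true ∧
    run 4923 1920 1813 = true ∧
    run 4931 2656 2508 = true ∧
    run 4942 756 715 = true ∧
    run 4944 1320 1247 = true ∧
    run 4951 1752 1656 = true ∧
    run 4953 1920 1814 = true ∧
    run 4960 864 817 = true ∧
    run 4962 1200 1135 = true ∧
    run 4981 1560 1475 = true ∧
    run 4983 2080 1967 = true ∧
    run 4984 720 682 = true ∧
    run 4989 2464 2330 = true ∧
    run 4991 2184 2065 = true ∧
    run 4994 1296 1226 = true ∧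
    run 4995 2592 2451 = true ∧
    run 4997 2590 2449 = true :=
  ⟨by decide +kernel, by decide +kernel, by decide +kernel, by decide +kernel,
    by decide +kernel, by decide +kernel, by decide +kernel, by decide +kernel,
    by decide +kernel, by decide +kernel, by decide +kernel, by decide +kernel,
    by decide +kernel, by decide +kernel, by decide +kernel, by decide +kernel,
    by decide +kernel, by decide +kernel, by decide +kernel, by decide +kernel,
    by decide +kernel, by decide +kernel, by decide +kernel, by decide +kernel,
    by decide +kernel, by decide +kernel, by decide +kernel, by decide +kernel,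
    by decide +kernel, by decide +kernel, by decide +kernel, by decide +kernel,
    by decide +kernel, by decide +kernel, by decide +kernel, by decide +kernel,
    by decide +kernel, by decide +kernel, by decide +kernel, by decide +kernel,
    by decide +kernel, by decide +kernel, by decide +kernel, by decide +kernel,
    by decide +kernel, by decide +kernel, by decide +kernel, by decide +kernel,
    by decide +kernel, by decide +kernel, by decide +kernel, by decide +kernel,
    by decide +kernel, by decide +kernel, by decide +kernel⟩

end Pool.Agent.Helper97.P18
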