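import Pool.Agent.Helper97.P18.Core

set_option maxRecDepth 100000

namespace Pool.Agent.Helper97.P18


theorem c_42 :
    run 5007 2464 2331 = true ∧
    run 5009 2578 2439 = true ∧
    run 5013 2040 1930 = true ∧
    run 5015 2460 2328 = true ∧
    run 5026 720 682 = true ∧
    run 5029 1704 1613 = true ∧
    run 5030 1278 1210 = true ∧
    run 5042 1188 1125 = true ∧
    run 5067 2520 2387 = true ∧
    run 5074 836 793 = true ∧
    run 5076 1248 1183 = true ∧
    run 5099 2340 2218 = true ∧
    run 5104 792 752 = true ∧
    run 5108 960 911 = true ∧
    run 5124 960 911 = true ∧
    run 5131 1296 1230 = true ∧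
    run 5134 816 775 = true ∧
    run 5139 2340 2220 = true ∧
    run 5146 720 684 = true ∧
    run 5150 1144 1087 = true ∧
    run 5166 1032 981 = true ∧
    run 5176 792 753 = true ∧
    run 5179 1440 1368 = true ∧
    run 5181 2296 2181 = true ∧
    run 5182 800 761 = true ∧
    run 5191 1472 1399 = true ∧
    run 5192 1196 1137 = true ∧
    run 5193 1912 1817 = true ∧
    run 5210 1120 1065 = true ∧
    run 5213 1800 1711 = true ∧
    run 5219 2244 2133 = true ∧
    run 5220 1152 1096 = true ∧
    run 5222 936 891 = true ∧
    run 5223 1680 1598 = true ∧
    run 5233 1248 1187 = true ∧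
    run 5237 2350 2235 = true ∧
    run 5247 2340 2226 = true ∧
    run 5253 1864 1774 = true ∧
    run 5257 1296 1234 = true ∧
    run 5263 1200 1143 = true ∧
    run 5270 1080 1029 = true ∧
    run 5276 1088 1036 = true ∧
    run 5279 2308 2197 = true ∧
    run 5282 1152 1097 = true ∧
    run 5292 960 915 = true ∧
    run 5295 2292 2182 = true ∧
    run 5304 1140 1086 = true ∧
    run 5329 1500 1430 = true ∧
    run 5337 2250 2145 = true ∧
    run 5342 1122 1070 = true ∧
    run 5349 2238 2134 = true ∧
    run 5351 2236 2132 = true ∧
    run 5367 2220 2117 = true :=
  ⟨by decide +kernel, by decide +kernel, by decide +kernel, by decide +kernel,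
    by decide +kernel, by decide +kernel, by decide +kernel, by decide +kernel,
    by decide +kernel, by decide +kernel, by decide +kernel, by decide +kernel,
    by decide +kernel, by decide +kernel, by decide +kernel, by decide +kernel,
    by decide +kernel, by decide +kernel, by decide +kernel, by decide +kernel,
    by decide +kernel, by decide +kernel, by decide +kernel, by decide +kernel,
    by decide +kernel, by decide +kernel, by decide +kernel, by decide +kernel,
    by decide +kernel, by decide +kernel, by decide +kernel, by decide +kernel,
    by decide +kernel, by decide +kernel, by decide +kernel, by decide +kernel,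
    by decide +kernel, by decide +kernel, by decide +kernel, by decide +kernel,
    by decide +kernel, by decide +kernel, by decide +kernel, by decide +kernel,
    by decide +kernel, by decide +kernel, by decide +kernel, by decide +kernel,
    by decide +kernel, by decide +kernel, by decide +kernel, by decide +kernel,
    by decide +kernel⟩

end Pool.Agent.Helper97.P18
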