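import Pool.Agent.Helper97.P18.Core

set_option maxRecDepth 100000

namespace Pool.Agent.Helper97.P18


theorem c_43 :
    run 5369 1896 1809 = true ∧
    run 5380 704 673 = true ∧
    run 5386 732 699 = true ∧
    run 5388 800 764 = true ∧
    run 5391 2028 1935 = true ∧
    run 5394 1096 1047 = true ∧
    run 5408 864 826 = true ∧
    run 5411 1860 1776 = true ∧
    run 5421 1960 1872 = true ∧
    run 5443 960 918 = true ∧
    run 5445 2142 2046 = true ∧
    run 5451 2136 2041 = true ∧
    run 5455 1404 1342 = true ∧
    run 5462 1062 1016 = true ∧
    run 5464 696 666 = true ∧
    run 5476 640 613 = true ∧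
    run 5482 648 621 = true ∧
    run 5488 480 460 = true ∧
    run 5495 1584 1515 = true ∧
    run 5497 1280 1225 = true ∧
    run 5511 1980 1894 = true ∧
    run 5520 920 881 = true ∧
    run 5527 1368 1310 = true ∧
    run 5528 816 782 = true ∧
    run 5534 936 897 = true ∧
    run 5542 600 575 = true ∧
    run 5547 1872 1792 = true ∧
    run 5556 1008 966 = true ∧
    run 5558 672 645 = true ∧
    run 5560 624 599 = true ∧
    run 5563 1080 1035 = true ∧
    run 5576 1004 963 = true ∧
    run 5583 1600 1533 = true ∧
    run 5584 664 637 = true ∧
    run 5595 1992 1909 = true ∧
    run 5618 784 753 = true ∧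
    run 5626 648 622 = true ∧
    run 5641 1160 1113 = true ∧
    run 5642 828 795 = true ∧
    run 5644 648 623 = true ∧
    run 5701 1152 1107 = true ∧
    run 5731 1236 1188 = true ∧
    run 5736 924 889 = true ∧
    run 5750 918 883 = true ∧
    run 5761 1008 970 = true ∧
    run 5765 1822 1752 = true ∧
    run 5795 1620 1559 = true ∧
    run 5796 768 740 = true ∧
    run 5802 828 798 = true ∧
    run 5811 1776 1710 = true ∧
    run 5812 576 556 = true ∧
    run 5817 1320 1271 = true ∧
    run 5818 464 448 = true ∧
    run 5839 1040 1002 = true ∧
    run 5840 792 764 = true ∧
    run 5883 1200 1157 = true ∧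
    run 5894 660 637 = true ∧
    run 5904 840 811 = true ∧
    run 5910 838 809 = true ∧
    run 5915 1428 1378 = true ∧
    run 5929 936 904 = true ∧
    run 5941 1080 1043 = true ∧
    run 5944 544 526 = true ∧
    run 5965 1080 1043 = true ∧
    run 5993 1120 1083 = true ∧
    run 6004 480 465 = true ∧
    run 6007 960 928 = true ∧
    run 6010 524 507 = true ∧
    run 6022 504 488 = true ∧
    run 6027 1332 1288 = true ∧
    run 6028 384 372 = true ∧
    run 6031 1032 998 = true ∧
    run 6040 504 488 = true ∧
    run 6042 772 747 = true ∧
    run 6043 816 790 = true ∧
    run 6055 864 836 = true ∧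
    run 6057 1530 1480 = true ∧
    run 6058 384 373 = true ∧
    run 6075 1408 1363 = true ∧
    run 6097 840 814 = true ∧
    run 6098 592 574 = true ∧
    run 6100 480 466 = true ∧
    run 6103 720 698 = true ∧
    run 6104 624 605 = true ∧
    run 6106 432 419 = true ∧
    run 6117 1470 1424 = true ∧
    run 6126 672 652 = true ∧
    run 6137 1450 1405 = true ∧
    run 6138 560 544 = true ∧
    run 6142 480 466 = true ∧
    run 6171 1296 1257 = true ∧
    run 6187 932 904 = true ∧
    run 6191 1260 1222 = true ∧
    run 6193 720 699 = true ∧
    run 6210 624 606 = true ∧
    run 6215 1372 1331 = true ∧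
    run 6220 432 420 = true ∧
    run 6224 600 583 = true ∧
    run 6231 1276 1239 = true ∧
    run 6235 800 777 = true ∧
    run 6240 672 653 = true ∧
    run 6252 664 646 = true ∧
    run 6255 1260 1224 = true ∧
    run 6270 658 640 = true ∧
    run 6272 552 537 = true ∧
    run 6275 1200 1166 = true ∧
    run 6284 648 630 = true ∧
    run 6287 1300 1263 = true ∧
    run 6293 864 840 = true ∧
    run 6302 642 625 = true ∧
    run 6325 840 817 = true ∧
    run 6327 1152 1120 = true ∧
    run 6345 1120 1090 = true ∧
    run 6348 480 468 = true ∧
    run 6349 696 678 = true ∧
    run 6357 1230 1197 = true ∧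
    run 6361 816 795 = true ∧
    run 6363 840 818 = true ∧
    run 6364 384 375 = true ∧
    run 6365 1222 1189 = true ∧
    run 6367 720 701 = true ∧
    run 6371 1216 1184 = true ∧
    run 6392 528 515 = true ∧
    run 6409 780 760 = true ∧
    run 6417 1170 1140 = true ∧
    run 6425 1162 1132 = true ∧
    run 6438 440 430 = true ∧
    run 6440 480 469 = true ∧
    run 6445 756 737 = true ∧
    run 6454 324 317 = true ∧
    run 6455 1020 995 = true ∧
    run 6457 672 656 = true ∧
    run 6463 600 586 = true ∧
    run 6480 552 539 = true ∧
    run 6483 768 750 = true ∧
    run 6492 544 531 = true ∧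
    run 6493 576 563 = true ∧
    run 6505 684 668 = true ∧
    run 6514 356 348 = true ∧
    run 6518 424 415 = true ∧
    run 6525 1062 1037 = true ∧
    run 6527 1060 1035 = true ∧
    run 6531 900 879 = true ∧
    run 6532 320 313 = true ∧
    run 6540 520 508 = true ∧
    run 6543 720 704 = true ∧
    run 6547 692 676 = true ∧
    run 6550 344 337 = true ∧
    run 6560 512 501 = true ∧
    run 6567 1020 996 = true ∧
    run 6572 504 493 = true ∧
    run 6592 328 322 = true ∧
    run 6599 924 903 = true ∧
    run 6607 648 634 = true ∧
    run 6611 976 954 = true ∧
    run 6619 576 564 = true ∧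
    run 6622 264 259 = true ∧
    run 6623 768 751 = true ∧
    run 6625 636 623 = true ∧
    run 6640 312 306 = true ∧
    run 6643 432 423 = true ∧
    run 6648 368 361 = true ∧
    run 6662 462 453 = true ∧
    run 6674 456 447 = true ∧
    run 6677 910 891 = true ∧
    run 6685 504 494 = true ∧
    run 6689 840 823 = true ∧
    run 6720 360 354 = true ∧
    run 6725 862 845 = true ∧
    run 6730 240 236 = true ∧
    run 6744 420 412 = true ∧
    run 6754 276 272 = true ∧
    run 6779 808 793 = true ∧
    run 6796 240 237 = true ∧
    run 6816 384 378 = true ∧
    run 6849 738 725 = true ∧
    run 6876 352 347 = true ∧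
    run 6883 368 362 = true ∧
    run 6903 544 535 = true ∧
    run 6907 452 445 = true ∧
    run 6927 660 649 = true ∧
    run 6928 160 159 = true ∧
    run 6929 658 647 = true ∧
    run 6932 320 316 = true ∧
    run 6938 240 237 = true ∧
    run 6951 504 496 = true ∧
    run 6968 240 237 = true ∧
    run 6972 240 237 = true ∧
    run 6975 612 603 = true ∧
    run 6977 552 544 = true ∧
    run 6978 240 237 = true ∧
    run 6983 440 434 = true ∧
    run 6994 180 178 = true ∧
    run 7000 168 167 = true ∧
    run 7002 292 288 = true ∧
    run 7018 144 143 = true ∧
    run 7020 280 277 = true ∧
    run 7025 562 554 = true ∧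
    run 7039 360 355 = true ∧
    run 7058 208 206 = true ∧
    run 7064 260 257 = true ∧
    run 7070 216 214 = true ∧
    run 7072 168 167 = true ∧
    run 7073 408 403 = true ∧
    run 7076 256 253 = true ∧
    run 7092 240 238 = true ∧
    run 7093 240 238 = true ∧
    run 7098 168 167 = true ∧
    run 7102 162 161 = true ∧
    run 7103 384 379 = true ∧
    run 7105 264 261 = true ∧
    run 7112 192 190 = true ∧
    run 7129 288 285 = true ∧
    run 7133 288 285 = true ∧
    run 7146 192 191 = true ∧
    run 7169 418 413 = true ∧
    run 7171 276 273 = true ∧
    run 7207 252 250 = true ∧
    run 7208 144 143 = true ∧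
    run 7212 184 183 = true ∧
    run 7216 120 120 = true ∧
    run 7225 220 218 = true ∧
    run 7238 120 120 = true ∧
    run 7273 144 144 = true ∧
    run 7275 312 309 = true ∧
    run 7277 310 307 = true ∧
    run 7279 204 203 = true ∧
    run 7284 144 144 = true ∧
    run 7289 264 262 = true ∧
    run 7296 144 144 = true ∧
    run 7325 262 260 = true ∧
    run 7329 216 215 = true ∧
    run 7334 126 126 = true ∧
    run 7341 216 215 = true ∧
    run 7347 240 239 = true ∧
    run 7360 72 73 = true ∧
    run 7362 112 112 = true ∧
    run 7375 140 140 = true ∧
    run 7381 132 132 = true ∧
    run 7396 64 65 = true ∧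
    run 7405 120 120 = true ∧
    run 7406 72 73 = true ∧
    run 7413 120 120 = true ∧
    run 7414 56 57 = true ∧
    run 7415 172 172 = true ∧
    run 7417 108 108 = true ∧
    run 7418 64 65 = true ∧
    run 7435 96 96 = true ∧
    run 7441 84 85 = true ∧
    run 7451 136 136 = true ∧
    run 7455 108 108 = true ∧
    run 7458 48 49 = true ∧
    run 7478 40 41 = true ∧
    run 7491 96 97 = true ∧
    run 7492 32 33 = true ∧
    run 7512 36 37 = true ∧
    run 7514 36 37 = true ∧
    run 7529 58 59 = true ∧
    run 7532 24 25 = true ∧
    run 7540 16 17 = true ∧
    run 7568 8 9 = true :=
  ⟨by decide +kernel, by decide +kernel, by decide +kernel, by decide +kernel,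
    by decide +kernel, by decide +kernel, by decide +kernel, by decide +kernel,
    by decide +kernel, by decide +kernel, by decide +kernel, by decide +kernel,
    by decide +kernel, by decide +kernel, by decide +kernel, by decide +kernel,
    by decide +kernel, by decide +kernel, by decide +kernel, by decide +kernel,
    by decide +kernel, by decide +kernel, by decide +kernel, by decide +kernel,
    by decide +kernel, by decide +kernel, by decide +kernel, by decide +kernel,
    by decide +kernel, by decide +kernel, by decide +kernel, by decide +kernel,
    by decide +kernel, by decide +kernel, by decide +kernel, by decide +kernel,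
    by decide +kernel, by decide +kernel, by decide +kernel, by decide +kernel,
    by decide +kernel, by decide +kernel, by decide +kernel, by decide +kernel,
    by decide +kernel, by decide +kernel, by decide +kernel, by decide +kernel,
    by decide +kernel, by decide +kernel, by decide +kernel, by decide +kernel,
    by decide +kernel, by decide +kernel, by decide +kernel, by decide +kernel,
    by decide +kernel, by decide +kernel, by decide +kernel, by decide +kernel,
    by decide +kernel, by decide +kernel, by decide +kernel, by decide +kernel,
    by decide +kernel, by decide +kernel, by decide +kernel, by decide +kernel,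
    by decide +kernel, by decide +kernel, by decide +kernel, by decide +kernel,
    by decide +kernel, by decide +kernel, by decide +kernel, by decide +kernel,
    by decide +kernel, by decide +kernel, by decide +kernel, by decide +kernel,
    by decide +kernel, by decide +kernel, by decide +kernel, by decide +kernel,
    by decide +kernel, by decide +kernel, by decide +kernel, by decide +kernel,
    by decide +kernel, by decide +kernel, by decide +kernel, by decide +kernel,
    by decide +kernel, by decide +kernel, by decide +kernel, by decide +kernel,
    by decide +kernel, by decide +kernel, by decide +kernel, by decide +kernel,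
    by decide +kernel, by decide +kernel, by decide +kernel, by decide +kernel,
    by decide +kernel, by decide +kernel, by decide +kernel, by decide +kernel,
    by decide +kernel, by decide +kernel, by decide +kernel, by decide +kernel,
    by decide +kernel, by decide +kernel, by decide +kernel, by decide +kernel,
    by decide +kernel, by decide +kernel, by decide +kernel, by decide +kernel,
    by decide +kernel, by decide +kernel, by decide +kernel, by decide +kernel,
    by decide +kernel, by decide +kernel, by decide +kernel, by decide +kernel,
    by decide +kernel, by decide +kernel, by decide +kernel, by decide +kernel,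
    by decide +kernel, by decide +kernel, by decide +kernel, by decide +kernel,
    by decide +kernel, by decide +kernel, by decide +kernel, by decide +kernel,
    by decide +kernel, by decide +kernel, by decide +kernel, by decide +kernel,
    by decide +kernel, by decide +kernel, by decide +kernel, by decide +kernel,
    by decide +kernel, by decide +kernel, by decide +kernel, by decide +kernel,
    by decide +kernel, by decide +kernel, by decide +kernel, by decide +kernel,
    by decide +kernel, by decide +kernel, by decide +kernel, by decide +kernel,
    by decide +kernel, by decide +kernel, by decide +kernel, by decide +kernel,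
    by decide +kernel, by decide +kernel, by decide +kernel, by decide +kernel,
    by decide +kernel, by decide +kernel, by decide +kernel, by decide +kernel,
    by decide +kernel, by decide +kernel, by decide +kernel, by decide +kernel,
    by decide +kernel, by decide +kernel, by decide +kernel, by decide +kernel,
    by decide +kernel, by decide +kernel, by decide +kernel, by decide +kernel,
    by decide +kernel, by decide +kernel, by decide +kernel, by decide +kernel,
    by decide +kernel, by decide +kernel, by decide +kernel, by decide +kernel,
    by decide +kernel, by decide +kernel, by decide +kernel, by decide +kernel,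
    by decide +kernel, by decide +kernel, by decide +kernel, by decide +kernel,
    by decide +kernel, by decide +kernel, by decide +kernel, by decide +kernel,
    by decide +kernel, by decide +kernel, by decide +kernel, by decide +kernel,
    by decide +kernel, by decide +kernel, by decide +kernel, by decide +kernel,
    by decide +kernel, by decide +kernel, by decide +kernel, by decide +kernel,
    by decide +kernel, by decide +kernel, by decide +kernel, by decide +kernel,
    by decide +kernel, by decide +kernel, by decide +kernel, by decide +kernel,
    by decide +kernel, by decide +kernel, by decide +kernel, by decide +kernel,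
    by decide +kernel, by decide +kernel, by decide +kernel, by decide +kernel,
    by decide +kernel, by decide +kernel, by decide +kernel, by decide +kernel,
    by decide +kernel, by decide +kernel, by decide +kernel, by decide +kernel,
    by decide +kernel, by decide +kernel, by decide +kernel, by decide +kernel,
    by decide +kernel, by decide +kernel, by decide +kernel, by decide +kernel,
    by decide +kernel, by decide +kernel, by decide +kernel, by decide +kernel,
    by decide +kernel, by decide +kernel, by decide +kernel, by decide +kernel,
    by decide +kernel, by decide +kernel, by decide +kernel, by decide +kernel,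
    by decide +kernel⟩

end Pool.Agent.Helper97.P18
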