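import Pool.Agent.Helper97.P18.Base
import Pool.Agent.Helper97.P18.C01
import Pool.Agent.Helper97.P18.C02
import Pool.Agent.Helper97.P18.C03
import Pool.Agent.Helper97.P18.C04
import Pool.Agent.Helper97.P18.C05
import Pool.Agent.Helper97.P18.C06
import Pool.Agent.Helper97.P18.C07
import Pool.Agent.Helper97.P18.C08
import Pool.Agent.Helper97.P18.C09
import Pool.Agent.Helper97.P18.C10
import Pool.Agent.Helper97.P18.C11
import Pool.Agent.Helper97.P18.C12
import Pool.Agent.Helper97.P18.C13
import Pool.Agent.Helper97.P18.C14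
import Pool.Agent.Helper97.P18.C15
import Pool.Agent.Helper97.P18.C16
import Pool.Agent.Helper97.P18.C17
import Pool.Agent.Helper97.P18.C18
import Pool.Agent.Helper97.P18.C19
import Pool.Agent.Helper97.P18.C20
import Pool.Agent.Helper97.P18.C21
import Pool.Agent.Helper97.P18.C22
import Pool.Agent.Helper97.P18.C23
import Pool.Agent.Helper97.P18.C24
import Pool.Agent.Helper97.P18.C25
import Pool.Agent.Helper97.P18.C26
import Pool.Agent.Helper97.P18.C27
import Pool.Agent.Helper97.P18.C28
import Pool.Agent.Helper97.P18.C29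
import Pool.Agent.Helper97.P18.C30
import Pool.Agent.Helper97.P18.C31
import Pool.Agent.Helper97.P18.C32
import Pool.Agent.Helper97.P18.C33
import Pool.Agent.Helper97.P18.C34
import Pool.Agent.Helper97.P18.C35
import Pool.Agent.Helper97.P18.C36
import Pool.Agent.Helper97.P18.C37
import Pool.Agent.Helper97.P18.C38
import Pool.Agent.Helper97.P18.C39
import Pool.Agent.Helper97.P18.C40
import Pool.Agent.Helper97.P18.C41
import Pool.Agent.Helper97.P18.C42
import Pool.Agent.Helper97.P18.C43

set_option maxRecDepth 100000

namespace Pool.Agent.Helper97.P18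

/-- Pairs treated in `C01.lean`. -/
def L_01 : List (ℕ × ℕ) := [
  (3, 5760), (13, 4000), (23, 5632), (24, 3600), (30, 3778), (34, 2516), (36, 3712), (42, 2940),
  (43, 4016), (85, 4800), (91, 4032), (106, 2352), (111, 7476), (112, 2112), (114, 3600),
  (129, 7458), (131, 7456), (137, 7450), (144, 3720)]

theorem n_01 : NPL L_01 := by
  obtain ⟨h1, h2, h3, h4, h5, h6, h7, h8, h9, h10, h11, h12, h13, h14, h15, h16, h17, h18, h19, h20, h21, h22, h23, h24⟩ := c_01
  refine NPL_cons (np_run h1 (by decide))
    (NPL_cons (np_run h2 (by decide))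
    (NPL_cons (np_run h3 (by decide))
    (NPL_cons (np_run h4 (by decide))
    (NPL_cons (np_run h5 (by decide))
    (NPL_cons (np_run h6 (by decide))
    (NPL_cons (np_run h7 (by decide))
    (NPL_cons (np_run h8 (by decide))
    (NPL_cons (np_run h9 (by decide))
    (NPL_cons (np_run h10 (by decide))
    (NPL_cons (np_run h11 (by decide))
    (NPL_cons (np_run h12 (by decide))
    (NPL_cons (np_fin (by decide) (inv_beg h13) h14)
    (NPL_cons (np_run h15 (by decide))
    (NPL_cons (np_run h16 (by decide))
    (NPL_cons (np_fin (by decide) (inv_beg h17) h18)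
    (NPL_cons (np_fin (by decide) (inv_beg h19) h20)
    (NPL_cons (np_fin (by decide) (inv_mid (inv_beg h21) h22) h23)
    (NPL_cons (np_run h24 (by decide)) NPL_nil))))))))))))))))))

/-- Pairs treated in `C02.lean`. -/
def L_02 : List (ℕ × ℕ) := [
  (147, 6372), (156, 3712), (158, 2968), (166, 2472), (168, 2496), (192, 3612), (198, 2952),
  (199, 4920), (200, 3692), (210, 2880), (214, 2456), (229, 4440), (256, 2208), (271, 4860),
  (292, 2304), (295, 3840), (301, 4152), (331, 4640), (335, 7252), (340, 2400), (372, 3200)]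

theorem n_02 : NPL L_02 := by
  obtain ⟨h1, h2, h3, h4, h5, h6, h7, h8, h9, h10, h11, h12, h13, h14, h15, h16, h17, h18, h19, h20, h21, h22, h23, h24, h25, h26, h27⟩ := c_02
  refine NPL_cons (np_fin (by decide) (inv_beg h1) h2)
    (NPL_cons (np_run h3 (by decide))
    (NPL_cons (np_run h4 (by decide))
    (NPL_cons (np_run h5 (by decide))
    (NPL_cons (np_run h6 (by decide))
    (NPL_cons (np_run h7 (by decide))
    (NPL_cons (np_run h8 (by decide))
    (NPL_cons (np_fin (by decide) (inv_beg h9) h10)
    (NPL_cons (np_run h11 (by decide))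
    (NPL_cons (np_run h12 (by decide))
    (NPL_cons (np_run h13 (by decide))
    (NPL_cons (np_run h14 (by decide))
    (NPL_cons (np_run h15 (by decide))
    (NPL_cons (np_fin (by decide) (inv_beg h16) h17)
    (NPL_cons (np_run h18 (by decide))
    (NPL_cons (np_run h19 (by decide))
    (NPL_cons (np_run h20 (by decide))
    (NPL_cons (np_fin (by decide) (inv_beg h21) h22)
    (NPL_cons (np_fin (by decide) (inv_mid (inv_beg h23) h24) h25)
    (NPL_cons (np_run h26 (by decide))
    (NPL_cons (np_run h27 (by decide)) NPL_nil))))))))))))))))))))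

/-- Pairs treated in `C03.lean`. -/
def L_03 : List (ℕ × ℕ) := [
  (376, 2400), (389, 6864), (396, 3360), (406, 1944), (407, 6972), (419, 6996), (435, 6820)]

theorem n_03 : NPL L_03 := by
  obtain ⟨h1, h2, h3, h4, h5, h6, h7, h8, h9, h10, h11, h12, h13, h14, h15⟩ := c_03
  refine NPL_cons (np_run h1 (by decide))
    (NPL_cons (np_fin (by decide) (inv_mid (inv_beg h2) h3) h4)
    (NPL_cons (np_run h5 (by decide))
    (NPL_cons (np_run h6 (by decide))
    (NPL_cons (np_fin (by decide) (inv_mid (inv_beg h7) h8) h9)
    (NPL_cons (np_fin (by decide) (inv_mid (inv_beg h10) h11) h12)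
    (NPL_cons (np_fin (by decide) (inv_mid (inv_beg h13) h14) h15) NPL_nil))))))

/-- Pairs treated in `C04.lean`. -/
def L_04 : List (ℕ × ℕ) := [
  (436, 2368), (444, 3312), (448, 1536), (460, 2160), (464, 3264), (480, 3552), (497, 6072),
  (498, 2832), (499, 4416), (508, 1856), (512, 3360), (515, 6420), (516, 3072), (526, 2120),
  (529, 4320), (543, 5632)]

theorem n_04 : NPL L_04 := by
  obtain ⟨h1, h2, h3, h4, h5, h6, h7, h8, h9, h10, h11, h12, h13, h14, h15, h16, h17, h18, h19, h20, h21, h22, h23⟩ := c_04
  refine NPL_cons (np_run h1 (by decide))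
    (NPL_cons (np_run h2 (by decide))
    (NPL_cons (np_run h3 (by decide))
    (NPL_cons (np_run h4 (by decide))
    (NPL_cons (np_run h5 (by decide))
    (NPL_cons (np_run h6 (by decide))
    (NPL_cons (np_fin (by decide) (inv_mid (inv_beg h7) h8) h9)
    (NPL_cons (np_run h10 (by decide))
    (NPL_cons (np_fin (by decide) (inv_beg h11) h12)
    (NPL_cons (np_run h13 (by decide))
    (NPL_cons (np_run h14 (by decide))
    (NPL_cons (np_fin (by decide) (inv_mid (inv_beg h15) h16) h17)
    (NPL_cons (np_run h18 (by decide))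
    (NPL_cons (np_run h19 (by decide))
    (NPL_cons (np_fin (by decide) (inv_beg h20) h21)
    (NPL_cons (np_fin (by decide) (inv_beg h22) h23) NPL_nil)))))))))))))))

/-- Pairs treated in `C05.lean`. -/
def L_05 : List (ℕ × ℕ) := [
  (544, 2344), (573, 5280), (576, 3504), (577, 4320), (584, 3264), (594, 3216), (600, 3492),
  (616, 1968), (628, 1792), (636, 3120), (645, 6760), (675, 6660)]

theorem n_05 : NPL L_05 := by
  obtain ⟨h1, h2, h3, h4, h5, h6, h7, h8, h9, h10, h11, h12, h13, h14, h15, h16, h17, h18⟩ := c_05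
  refine NPL_cons (np_run h1 (by decide))
    (NPL_cons (np_fin (by decide) (inv_beg h2) h3)
    (NPL_cons (np_run h4 (by decide))
    (NPL_cons (np_fin (by decide) (inv_beg h5) h6)
    (NPL_cons (np_run h7 (by decide))
    (NPL_cons (np_run h8 (by decide))
    (NPL_cons (np_run h9 (by decide))
    (NPL_cons (np_run h10 (by decide))
    (NPL_cons (np_run h11 (by decide))
    (NPL_cons (np_run h12 (by decide))
    (NPL_cons (np_fin (by decide) (inv_mid (inv_beg h13) h14) h15)
    (NPL_cons (np_fin (by decide) (inv_mid (inv_beg h16) h17) h18) NPL_nil)))))))))))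

/-- Pairs treated in `C06.lean`. -/
def L_06 : List (ℕ × ℕ) := [
  (676, 2304), (679, 3864), (683, 5520), (702, 3120), (706, 2160), (707, 5892), (708, 2688),
  (717, 6870)]

theorem n_06 : NPL L_06 := by
  obtain ⟨h1, h2, h3, h4, h5, h6, h7, h8, h9, h10, h11, h12, h13, h14⟩ := c_06
  refine NPL_cons (np_run h1 (by decide))
    (NPL_cons (np_run h2 (by decide))
    (NPL_cons (np_fin (by decide) (inv_beg h3) h4)
    (NPL_cons (np_run h5 (by decide))
    (NPL_cons (np_run h6 (by decide))
    (NPL_cons (np_fin (by decide) (inv_mid (inv_beg h7) h8) h9)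
    (NPL_cons (np_run h10 (by decide))
    (NPL_cons (np_fin (by decide) (inv_mid (inv_mid (inv_beg h11) h12) h13) h14) NPL_nil)))))))

/-- Pairs treated in `C07.lean`. -/
def L_07 : List (ℕ × ℕ) := [
  (741, 6640), (759, 6828), (773, 5152), (785, 6802)]

theorem n_07 : NPL L_07 := by
  obtain ⟨h1, h2, h3, h4, h5, h6, h7, h8, h9, h10, h11, h12, h13⟩ := c_07
  refine NPL_cons (np_fin (by decide) (inv_mid (inv_beg h1) h2) h3)
    (NPL_cons (np_fin (by decide) (inv_mid (inv_mid (inv_beg h4) h5) h6) h7)
    (NPL_cons (np_fin (by decide) (inv_beg h8) h9)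
    (NPL_cons (np_fin (by decide) (inv_mid (inv_mid (inv_beg h10) h11) h12) h13) NPL_nil)))

/-- Pairs treated in `C08.lean`. -/
def L_08 : List (ℕ × ℕ) := [
  (795, 6792), (808, 1792), (811, 4500), (818, 2704), (819, 5796), (824, 3168), (832, 2248),
  (833, 4608), (866, 3360), (875, 5712), (880, 2016), (913, 3520)]

theorem n_08 : NPL L_08 := by
  obtain ⟨h1, h2, h3, h4, h5, h6, h7, h8, h9, h10, h11, h12, h13, h14, h15, h16, h17, h18, h19, h20, h21⟩ := c_08
  refine NPL_cons (np_fin (by decide) (inv_mid (inv_mid (inv_beg h1) h2) h3) h4)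
    (NPL_cons (np_run h5 (by decide))
    (NPL_cons (np_fin (by decide) (inv_beg h6) h7)
    (NPL_cons (np_run h8 (by decide))
    (NPL_cons (np_fin (by decide) (inv_mid (inv_beg h9) h10) h11)
    (NPL_cons (np_run h12 (by decide))
    (NPL_cons (np_run h13 (by decide))
    (NPL_cons (np_fin (by decide) (inv_beg h14) h15)
    (NPL_cons (np_run h16 (by decide))
    (NPL_cons (np_fin (by decide) (inv_mid (inv_beg h17) h18) h19)
    (NPL_cons (np_run h20 (by decide))
    (NPL_cons (np_run h21 (by decide)) NPL_nil)))))))))))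

/-- Pairs treated in `C09.lean`. -/
def L_09 : List (ℕ × ℕ) := [
  (923, 5040), (942, 3322), (943, 3536), (944, 3000), (954, 3180), (968, 2640), (979, 4404),
  (996, 3264), (1002, 3168), (1010, 2640), (1014, 3096), (1033, 3168), (1077, 6112), (1088, 2400)]

theorem n_09 : NPL L_09 := by
  obtain ⟨h1, h2, h3, h4, h5, h6, h7, h8, h9, h10, h11, h12, h13, h14, h15, h16, h17, h18⟩ := c_09
  refine NPL_cons (np_fin (by decide) (inv_beg h1) h2)
    (NPL_cons (np_run h3 (by decide))
    (NPL_cons (np_run h4 (by decide))
    (NPL_cons (np_run h5 (by decide))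
    (NPL_cons (np_run h6 (by decide))
    (NPL_cons (np_run h7 (by decide))
    (NPL_cons (np_fin (by decide) (inv_beg h8) h9)
    (NPL_cons (np_run h10 (by decide))
    (NPL_cons (np_run h11 (by decide))
    (NPL_cons (np_run h12 (by decide))
    (NPL_cons (np_run h13 (by decide))
    (NPL_cons (np_run h14 (by decide))
    (NPL_cons (np_fin (by decide) (inv_mid (inv_beg h15) h16) h17)
    (NPL_cons (np_run h18 (by decide)) NPL_nil)))))))))))))

/-- Pairs treated in `C10.lean`. -/
def L_10 : List (ℕ × ℕ) := [
  (1090, 2052), (1095, 6300), (1099, 3672), (1100, 3240), (1104, 3240), (1108, 1728),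
  (1113, 4320), (1125, 6160), (1129, 4304)]

theorem n_10 : NPL L_10 := by
  obtain ⟨h1, h2, h3, h4, h5, h6, h7, h8, h9, h10, h11, h12, h13, h14, h15⟩ := c_10
  refine NPL_cons (np_run h1 (by decide))
    (NPL_cons (np_fin (by decide) (inv_mid (inv_beg h2) h3) h4)
    (NPL_cons (np_run h5 (by decide))
    (NPL_cons (np_run h6 (by decide))
    (NPL_cons (np_run h7 (by decide))
    (NPL_cons (np_run h8 (by decide))
    (NPL_cons (np_fin (by decide) (inv_beg h9) h10)
    (NPL_cons (np_fin (by decide) (inv_mid (inv_beg h11) h12) h13)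
    (NPL_cons (np_fin (by decide) (inv_beg h14) h15) NPL_nil))))))))

/-- Pairs treated in `C11.lean`. -/
def L_11 : List (ℕ × ℕ) := [
  (1135, 4284), (1142, 2920), (1143, 5152), (1144, 2136), (1145, 6048), (1154, 3216),
  (1178, 2560), (1179, 5376), (1193, 5112)]

theorem n_11 : NPL L_11 := by
  obtain ⟨h1, h2, h3, h4, h5, h6, h7, h8, h9, h10, h11, h12, h13, h14, h15, h16⟩ := c_11
  refine NPL_cons (np_fin (by decide) (inv_beg h1) h2)
    (NPL_cons (np_run h3 (by decide))
    (NPL_cons (np_fin (by decide) (inv_beg h4) h5)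
    (NPL_cons (np_run h6 (by decide))
    (NPL_cons (np_fin (by decide) (inv_mid (inv_beg h7) h8) h9)
    (NPL_cons (np_run h10 (by decide))
    (NPL_cons (np_run h11 (by decide))
    (NPL_cons (np_fin (by decide) (inv_mid (inv_beg h12) h13) h14)
    (NPL_cons (np_fin (by decide) (inv_beg h15) h16) NPL_nil))))))))

/-- Pairs treated in `C12.lean`. -/
def L_12 : List (ℕ × ℕ) := [
  (1195, 4260), (1198, 1680), (1200, 3192), (1202, 3060), (1203, 5104), (1207, 4248),
  (1233, 4800), (1252, 1920), (1255, 4220), (1270, 1944), (1273, 3360), (1279, 4200),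
  (1284, 3136)]

theorem n_12 : NPL L_12 := by
  obtain ⟨h1, h2, h3, h4, h5, h6, h7, h8, h9, h10, h11, h12, h13, h14, h15, h16, h17, h18, h19⟩ := c_12
  refine NPL_cons (np_fin (by decide) (inv_beg h1) h2)
    (NPL_cons (np_run h3 (by decide))
    (NPL_cons (np_run h4 (by decide))
    (NPL_cons (np_run h5 (by decide))
    (NPL_cons (np_fin (by decide) (inv_beg h6) h7)
    (NPL_cons (np_fin (by decide) (inv_beg h8) h9)
    (NPL_cons (np_fin (by decide) (inv_beg h10) h11)
    (NPL_cons (np_run h12 (by decide))
    (NPL_cons (np_fin (by decide) (inv_beg h13) h14)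
    (NPL_cons (np_run h15 (by decide))
    (NPL_cons (np_run h16 (by decide))
    (NPL_cons (np_fin (by decide) (inv_beg h17) h18)
    (NPL_cons (np_run h19 (by decide)) NPL_nil))))))))))))

/-- Pairs treated in `C13.lean`. -/
def L_13 : List (ℕ × ℕ) := [
  (1295, 5040), (1299, 5940), (1300, 2080), (1308, 2496), (1309, 3168), (1330, 1776),
  (1340, 2800), (1346, 3120), (1353, 4704), (1356, 2880), (1360, 2064), (1366, 1920),
  (1367, 6220)]

theorem n_13 : NPL L_13 := by
  obtain ⟨h1, h2, h3, h4, h5, h6, h7, h8, h9, h10, h11, h12, h13, h14, h15, h16, h17, h18, h19, h20⟩ := c_13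
  refine NPL_cons (np_fin (by decide) (inv_beg h1) h2)
    (NPL_cons (np_fin (by decide) (inv_mid (inv_beg h3) h4) h5)
    (NPL_cons (np_run h6 (by decide))
    (NPL_cons (np_run h7 (by decide))
    (NPL_cons (np_run h8 (by decide))
    (NPL_cons (np_run h9 (by decide))
    (NPL_cons (np_run h10 (by decide))
    (NPL_cons (np_run h11 (by decide))
    (NPL_cons (np_fin (by decide) (inv_beg h12) h13)
    (NPL_cons (np_run h14 (by decide))
    (NPL_cons (np_run h15 (by decide))
    (NPL_cons (np_run h16 (by decide))
    (NPL_cons (np_fin (by decide) (inv_mid (inv_mid (inv_beg h17) h18) h19) h20) NPL_nil))))))))))))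

/-- Pairs treated in `C14.lean`. -/
def L_14 : List (ℕ × ℕ) := [
  (1372, 1728), (1381, 4136), (1387, 3744), (1396, 2016), (1403, 4944), (1408, 1632),
  (1418, 2464), (1422, 3082), (1424, 2904), (1427, 6000), (1435, 3504)]

theorem n_14 : NPL L_14 := by
  obtain ⟨h1, h2, h3, h4, h5, h6, h7, h8, h9, h10, h11, h12, h13, h14, h15, h16⟩ := c_14
  refine NPL_cons (np_run h1 (by decide))
    (NPL_cons (np_fin (by decide) (inv_beg h2) h3)
    (NPL_cons (np_fin (by decide) (inv_beg h4) h5)
    (NPL_cons (np_run h6 (by decide))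
    (NPL_cons (np_fin (by decide) (inv_beg h7) h8)
    (NPL_cons (np_run h9 (by decide))
    (NPL_cons (np_run h10 (by decide))
    (NPL_cons (np_run h11 (by decide))
    (NPL_cons (np_run h12 (by decide))
    (NPL_cons (np_fin (by decide) (inv_mid (inv_beg h13) h14) h15)
    (NPL_cons (np_run h16 (by decide)) NPL_nil))))))))))

/-- Pairs treated in `C15.lean`. -/
def L_15 : List (ℕ × ℕ) := [
  (1441, 4092), (1444, 2048), (1447, 3872), (1451, 5472), (1455, 6132), (1457, 6130)]

theorem n_15 : NPL L_15 := by
  obtain ⟨h1, h2, h3, h4, h5, h6, h7, h8, h9, h10, h11, h12, h13, h14⟩ := c_15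
  refine NPL_cons (np_fin (by decide) (inv_beg h1) h2)
    (NPL_cons (np_run h3 (by decide))
    (NPL_cons (np_fin (by decide) (inv_beg h4) h5)
    (NPL_cons (np_fin (by decide) (inv_mid (inv_beg h6) h7) h8)
    (NPL_cons (np_fin (by decide) (inv_mid (inv_beg h9) h10) h11)
    (NPL_cons (np_fin (by decide) (inv_mid (inv_beg h12) h13) h14) NPL_nil)))))

/-- Pairs treated in `C16.lean`. -/
def L_16 : List (ℕ × ℕ) := [
  (1469, 5880), (1474, 2036), (1483, 2880), (1487, 6100), (1497, 6090), (1501, 4056),
  (1508, 2304), (1516, 1760), (1518, 2424)]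

theorem n_16 : NPL L_16 := by
  obtain ⟨h1, h2, h3, h4, h5, h6, h7, h8, h9, h10, h11, h12, h13, h14, h15, h16⟩ := c_16
  refine NPL_cons (np_fin (by decide) (inv_mid (inv_beg h1) h2) h3)
    (NPL_cons (np_run h4 (by decide))
    (NPL_cons (np_run h5 (by decide))
    (NPL_cons (np_fin (by decide) (inv_mid (inv_beg h6) h7) h8)
    (NPL_cons (np_fin (by decide) (inv_mid (inv_beg h9) h10) h11)
    (NPL_cons (np_fin (by decide) (inv_beg h12) h13)
    (NPL_cons (np_run h14 (by decide))
    (NPL_cons (np_run h15 (by decide))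
    (NPL_cons (np_run h16 (by decide)) NPL_nil))))))))

/-- Pairs treated in `C17.lean`. -/
def L_17 : List (ℕ × ℕ) := [
  (1519, 3264), (1525, 3864), (1529, 5904), (1532, 3024), (1552, 2008), (1553, 4480),
  (1558, 1584), (1565, 5688), (1577, 6010)]

theorem n_17 : NPL L_17 := by
  obtain ⟨h1, h2, h3, h4, h5, h6, h7, h8, h9, h10, h11, h12, h13, h14, h15, h16, h17⟩ := c_17
  refine NPL_cons (np_run h1 (by decide))
    (NPL_cons (np_fin (by decide) (inv_beg h2) h3)
    (NPL_cons (np_fin (by decide) (inv_mid (inv_beg h4) h5) h6)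
    (NPL_cons (np_run h7 (by decide))
    (NPL_cons (np_run h8 (by decide))
    (NPL_cons (np_fin (by decide) (inv_beg h9) h10)
    (NPL_cons (np_run h11 (by decide))
    (NPL_cons (np_fin (by decide) (inv_mid (inv_beg h12) h13) h14)
    (NPL_cons (np_fin (by decide) (inv_mid (inv_beg h15) h16) h17) NPL_nil))))))))

/-- Pairs treated in `C18.lean`. -/
def L_18 : List (ℕ × ℕ) := [
  (1598, 2392), (1599, 5824), (1604, 2560), (1619, 5796), (1620, 2976), (1631, 4752),
  (1633, 3168), (1638, 1920), (1645, 3384)]

theorem n_18 : NPL L_18 := by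
  obtain ⟨h1, h2, h3, h4, h5, h6, h7, h8, h9, h10, h11, h12, h13, h14⟩ := c_18
  refine NPL_cons (np_run h1 (by decide))
    (NPL_cons (np_fin (by decide) (inv_mid (inv_beg h2) h3) h4)
    (NPL_cons (np_run h5 (by decide))
    (NPL_cons (np_fin (by decide) (inv_mid (inv_beg h6) h7) h8)
    (NPL_cons (np_run h9 (by decide))
    (NPL_cons (np_fin (by decide) (inv_beg h10) h11)
    (NPL_cons (np_run h12 (by decide))
    (NPL_cons (np_run h13 (by decide))
    (NPL_cons (np_run h14 (by decide)) NPL_nil))))))))

/-- Pairs treated in `C19.lean`. -/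
def L_19 : List (ℕ × ℕ) := [
  (1648, 1440), (1663, 3120), (1671, 5760), (1681, 3560), (1684, 1920), (1697, 5712),
  (1698, 2160), (1710, 2938), (1714, 1760), (1724, 2928), (1730, 2800), (1770, 2908),
  (1777, 3552)]

theorem n_19 : NPL L_19 := by
  obtain ⟨h1, h2, h3, h4, h5, h6, h7, h8, h9, h10, h11, h12, h13, h14, h15, h16, h17, h18, h19⟩ := c_19
  refine NPL_cons (np_run h1 (by decide))
    (NPL_cons (np_run h2 (by decide))
    (NPL_cons (np_fin (by decide) (inv_mid (inv_beg h3) h4) h5)
    (NPL_cons (np_fin (by decide) (inv_beg h6) h7)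
    (NPL_cons (np_run h8 (by decide))
    (NPL_cons (np_fin (by decide) (inv_mid (inv_beg h9) h10) h11)
    (NPL_cons (np_run h12 (by decide))
    (NPL_cons (np_run h13 (by decide))
    (NPL_cons (np_run h14 (by decide))
    (NPL_cons (np_run h15 (by decide))
    (NPL_cons (np_run h16 (by decide))
    (NPL_cons (np_run h17 (by decide))
    (NPL_cons (np_fin (by decide) (inv_beg h18) h19) NPL_nil))))))))))))

/-- Pairs treated in `C20.lean`. -/
def L_20 : List (ℕ × ℕ) := [
  (1789, 3864), (1807, 3680), (1816, 1728), (1817, 5544), (1819, 3840), (1827, 4932),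
  (1876, 1536), (1881, 5256)]

theorem n_20 : NPL L_20 := by
  obtain ⟨h1, h2, h3, h4, h5, h6, h7, h8, h9, h10, h11, h12, h13, h14, h15, h16, h17⟩ := c_20
  refine NPL_cons (np_fin (by decide) (inv_beg h1) h2)
    (NPL_cons (np_fin (by decide) (inv_beg h3) h4)
    (NPL_cons (np_run h5 (by decide))
    (NPL_cons (np_fin (by decide) (inv_mid (inv_beg h6) h7) h8)
    (NPL_cons (np_fin (by decide) (inv_beg h9) h10)
    (NPL_cons (np_fin (by decide) (inv_mid (inv_beg h11) h12) h13)
    (NPL_cons (np_run h14 (by decide))
    (NPL_cons (np_fin (by decide) (inv_mid (inv_beg h15) h16) h17) NPL_nil)))))))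

/-- Pairs treated in `C21.lean`. -/
def L_21 : List (ℕ × ℕ) := [
  (1895, 5692), (1909, 3780), (1919, 5668), (1923, 4080), (1936, 1872), (1943, 4512),
  (1960, 1584), (1961, 5280)]

theorem n_21 : NPL L_21 := by
  obtain ⟨h1, h2, h3, h4, h5, h6, h7, h8, h9, h10, h11, h12, h13, h14, h15, h16, h17⟩ := c_21
  refine NPL_cons (np_fin (by decide) (inv_mid (inv_beg h1) h2) h3)
    (NPL_cons (np_fin (by decide) (inv_beg h4) h5)
    (NPL_cons (np_fin (by decide) (inv_mid (inv_beg h6) h7) h8)
    (NPL_cons (np_fin (by decide) (inv_beg h9) h10)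
    (NPL_cons (np_run h11 (by decide))
    (NPL_cons (np_fin (by decide) (inv_beg h12) h13)
    (NPL_cons (np_run h14 (by decide))
    (NPL_cons (np_fin (by decide) (inv_mid (inv_beg h15) h16) h17) NPL_nil)))))))

/-- Pairs treated in `C22.lean`. -/
def L_22 : List (ℕ × ℕ) := [
  (1971, 5440), (1977, 5400), (1982, 2802), (2003, 4464), (2026, 1836), (2028, 2208),
  (2034, 2776), (2050, 1680), (2062, 1836), (2063, 3840), (2066, 2500), (2068, 1408),
  (2074, 1836), (2076, 2496)]

theorem n_22 : NPL L_22 := by
  obtain ⟨h1, h2, h3, h4, h5, h6, h7, h8, h9, h10, h11, h12, h13, h14, h15, h16, h17, h18, h19, h20⟩ := c_22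
  refine NPL_cons (np_fin (by decide) (inv_mid (inv_beg h1) h2) h3)
    (NPL_cons (np_fin (by decide) (inv_mid (inv_beg h4) h5) h6)
    (NPL_cons (np_run h7 (by decide))
    (NPL_cons (np_fin (by decide) (inv_beg h8) h9)
    (NPL_cons (np_run h10 (by decide))
    (NPL_cons (np_run h11 (by decide))
    (NPL_cons (np_run h12 (by decide))
    (NPL_cons (np_run h13 (by decide))
    (NPL_cons (np_run h14 (by decide))
    (NPL_cons (np_fin (by decide) (inv_beg h15) h16)
    (NPL_cons (np_run h17 (by decide))
    (NPL_cons (np_run h18 (by decide))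
    (NPL_cons (np_run h19 (by decide))
    (NPL_cons (np_run h20 (by decide)) NPL_nil)))))))))))))

/-- Pairs treated in `C23.lean`. -/
def L_23 : List (ℕ × ℕ) := [
  (2087, 5500), (2089, 3312), (2093, 3744), (2102, 2520), (2105, 5482), (2122, 1820),
  (2134, 1800), (2146, 1812), (2148, 2048), (2173, 2736), (2178, 2160), (2185, 3600),
  (2192, 2520), (2202, 2692), (2204, 2688)]

theorem n_23 : NPL L_23 := by
  obtain ⟨h1, h2, h3, h4, h5, h6, h7, h8, h9, h10, h11, h12, h13, h14, h15, h16, h17, h18, h19, h20, h21⟩ := c_23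
  refine NPL_cons (np_fin (by decide) (inv_mid (inv_beg h1) h2) h3)
    (NPL_cons (np_run h4 (by decide))
    (NPL_cons (np_fin (by decide) (inv_beg h5) h6)
    (NPL_cons (np_run h7 (by decide))
    (NPL_cons (np_fin (by decide) (inv_mid (inv_beg h8) h9) h10)
    (NPL_cons (np_run h11 (by decide))
    (NPL_cons (np_run h12 (by decide))
    (NPL_cons (np_run h13 (by decide))
    (NPL_cons (np_run h14 (by decide))
    (NPL_cons (np_run h15 (by decide))
    (NPL_cons (np_run h16 (by decide))
    (NPL_cons (np_fin (by decide) (inv_beg h17) h18)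
    (NPL_cons (np_run h19 (by decide))
    (NPL_cons (np_run h20 (by decide))
    (NPL_cons (np_run h21 (by decide)) NPL_nil))))))))))))))

/-- Pairs treated in `C24.lean`. -/
def L_24 : List (ℕ × ℕ) := [
  (2216, 2496), (2226, 2292), (2239, 3564), (2240, 2280), (2248, 1408), (2249, 5040),
  (2259, 5256), (2260, 1728), (2262, 2662), (2265, 5322), (2266, 1772), (2271, 4896)]

theorem n_24 : NPL L_24 := by
  obtain ⟨h1, h2, h3, h4, h5, h6, h7, h8, h9, h10, h11, h12, h13, h14, h15, h16, h17, h18, h19, h20, h21⟩ := c_24
  refine NPL_cons (np_run h1 (by decide))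
    (NPL_cons (np_run h2 (by decide))
    (NPL_cons (np_fin (by decide) (inv_beg h3) h4)
    (NPL_cons (np_run h5 (by decide))
    (NPL_cons (np_run h6 (by decide))
    (NPL_cons (np_fin (by decide) (inv_mid (inv_beg h7) h8) h9)
    (NPL_cons (np_fin (by decide) (inv_mid (inv_beg h10) h11) h12)
    (NPL_cons (np_run h13 (by decide))
    (NPL_cons (np_run h14 (by decide))
    (NPL_cons (np_fin (by decide) (inv_mid (inv_beg h15) h16) h17)
    (NPL_cons (np_run h18 (by decide))
    (NPL_cons (np_fin (by decide) (inv_mid (inv_beg h19) h20) h21) NPL_nil)))))))))))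

/-- Pairs treated in `C25.lean`. -/
def L_25 : List (ℕ × ℕ) := [
  (2277, 5152), (2287, 3240), (2289, 4536), (2304, 2640), (2309, 5278), (2316, 2632),
  (2317, 3000), (2322, 2632), (2326, 1752), (2332, 1728)]

theorem n_25 : NPL L_25 := by
  obtain ⟨h1, h2, h3, h4, h5, h6, h7, h8, h9, h10, h11, h12, h13, h14, h15⟩ := c_25
  refine NPL_cons (np_fin (by decide) (inv_mid (inv_beg h1) h2) h3)
    (NPL_cons (np_run h4 (by decide))
    (NPL_cons (np_fin (by decide) (inv_beg h5) h6)
    (NPL_cons (np_run h7 (by decide))
    (NPL_cons (np_fin (by decide) (inv_mid (inv_beg h8) h9) h10)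
    (NPL_cons (np_run h11 (by decide))
    (NPL_cons (np_run h12 (by decide))
    (NPL_cons (np_run h13 (by decide))
    (NPL_cons (np_run h14 (by decide))
    (NPL_cons (np_run h15 (by decide)) NPL_nil)))))))))

/-- Pairs treated in `C26.lean`. -/
def L_26 : List (ℕ × ℕ) := [
  (2337, 5104), (2338, 1200), (2339, 5040), (2348, 2080), (2349, 4680), (2354, 2616),
  (2357, 5230), (2368, 1344), (2370, 2608), (2390, 2464), (2395, 3456)]

theorem n_26 : NPL L_26 := by
  obtain ⟨h1, h2, h3, h4, h5, h6, h7, h8, h9, h10, h11, h12, h13, h14, h15, h16, h17, h18, h19⟩ := c_26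
  refine NPL_cons (np_fin (by decide) (inv_mid (inv_beg h1) h2) h3)
    (NPL_cons (np_run h4 (by decide))
    (NPL_cons (np_fin (by decide) (inv_mid (inv_beg h5) h6) h7)
    (NPL_cons (np_run h8 (by decide))
    (NPL_cons (np_fin (by decide) (inv_beg h9) h10)
    (NPL_cons (np_run h11 (by decide))
    (NPL_cons (np_fin (by decide) (inv_mid (inv_beg h12) h13) h14)
    (NPL_cons (np_run h15 (by decide))
    (NPL_cons (np_run h16 (by decide))
    (NPL_cons (np_run h17 (by decide))
    (NPL_cons (np_fin (by decide) (inv_beg h18) h19) NPL_nil))))))))))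

/-- Pairs treated in `C27.lean`. -/
def L_27 : List (ℕ × ℕ) := [
  (2413, 2640), (2414, 2376), (2416, 1720), (2418, 1840), (2428, 1344), (2450, 2196),
  (2461, 3416), (2464, 1440), (2477, 4824), (2487, 5100), (2489, 5098), (2509, 3384),
  (2515, 3168), (2524, 1680)]

theorem n_27 : NPL L_27 := by
  obtain ⟨h1, h2, h3, h4, h5, h6, h7, h8, h9, h10, h11, h12, h13, h14, h15, h16, h17, h18, h19, h20, h21, h22⟩ := c_27
  refine NPL_cons (np_run h1 (by decide))
    (NPL_cons (np_run h2 (by decide))
    (NPL_cons (np_run h3 (by decide))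
    (NPL_cons (np_run h4 (by decide))
    (NPL_cons (np_run h5 (by decide))
    (NPL_cons (np_run h6 (by decide))
    (NPL_cons (np_fin (by decide) (inv_beg h7) h8)
    (NPL_cons (np_run h9 (by decide))
    (NPL_cons (np_fin (by decide) (inv_mid (inv_beg h10) h11) h12)
    (NPL_cons (np_fin (by decide) (inv_mid (inv_beg h13) h14) h15)
    (NPL_cons (np_fin (by decide) (inv_mid (inv_beg h16) h17) h18)
    (NPL_cons (np_fin (by decide) (inv_beg h19) h20)
    (NPL_cons (np_run h21 (by decide))
    (NPL_cons (np_run h22 (by decide)) NPL_nil)))))))))))))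

/-- Pairs treated in `C28.lean`. -/
def L_28 : List (ℕ × ℕ) := [
  (2525, 4920), (2527, 2880), (2528, 1760), (2533, 2688), (2553, 3744), (2575, 3336),
  (2576, 2136), (2620, 1584), (2640, 2472), (2641, 3072), (2658, 1792), (2659, 3120),
  (2672, 2456), (2676, 2448), (2682, 2220), (2683, 2592), (2684, 2448), (2685, 4902)]

theorem n_28 : NPL L_28 := by
  obtain ⟨h1, h2, h3, h4, h5, h6, h7, h8, h9, h10, h11, h12, h13, h14, h15, h16, h17, h18, h19, h20, h21, h22, h23, h24⟩ := c_28
  refine NPL_cons (np_fin (by decide) (inv_mid (inv_beg h1) h2) h3)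
    (NPL_cons (np_run h4 (by decide))
    (NPL_cons (np_run h5 (by decide))
    (NPL_cons (np_run h6 (by decide))
    (NPL_cons (np_fin (by decide) (inv_beg h7) h8)
    (NPL_cons (np_fin (by decide) (inv_beg h9) h10)
    (NPL_cons (np_run h11 (by decide))
    (NPL_cons (np_run h12 (by decide))
    (NPL_cons (np_run h13 (by decide))
    (NPL_cons (np_run h14 (by decide))
    (NPL_cons (np_run h15 (by decide))
    (NPL_cons (np_run h16 (by decide))
    (NPL_cons (np_run h17 (by decide))
    (NPL_cons (np_run h18 (by decide))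
    (NPL_cons (np_run h19 (by decide))
    (NPL_cons (np_run h20 (by decide))
    (NPL_cons (np_run h21 (by decide))
    (NPL_cons (np_fin (by decide) (inv_mid (inv_beg h22) h23) h24) NPL_nil)))))))))))))))))

/-- Pairs treated in `C29.lean`. -/
def L_29 : List (ℕ × ℕ) := [
  (2690, 2340), (2703, 3904), (2708, 1920), (2713, 2400), (2730, 2076), (2736, 2424),
  (2737, 2520), (2752, 1440), (2753, 3864), (2756, 2400), (2762, 2268), (2767, 3212),
  (2790, 2398), (2807, 4092), (2821, 2712), (2824, 1584), (2827, 3036), (2849, 4056)]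

theorem n_29 : NPL L_29 := by
  obtain ⟨h1, h2, h3, h4, h5, h6, h7, h8, h9, h10, h11, h12, h13, h14, h15, h16, h17, h18, h19, h20, h21, h22⟩ := c_29
  refine NPL_cons (np_run h1 (by decide))
    (NPL_cons (np_fin (by decide) (inv_beg h2) h3)
    (NPL_cons (np_run h4 (by decide))
    (NPL_cons (np_run h5 (by decide))
    (NPL_cons (np_run h6 (by decide))
    (NPL_cons (np_run h7 (by decide))
    (NPL_cons (np_run h8 (by decide))
    (NPL_cons (np_run h9 (by decide))
    (NPL_cons (np_fin (by decide) (inv_beg h10) h11)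
    (NPL_cons (np_run h12 (by decide))
    (NPL_cons (np_run h13 (by decide))
    (NPL_cons (np_run h14 (by decide))
    (NPL_cons (np_run h15 (by decide))
    (NPL_cons (np_fin (by decide) (inv_beg h16) h17)
    (NPL_cons (np_run h18 (by decide))
    (NPL_cons (np_run h19 (by decide))
    (NPL_cons (np_run h20 (by decide))
    (NPL_cons (np_fin (by decide) (inv_beg h21) h22) NPL_nil)))))))))))))))))

/-- Pairs treated in `C30.lean`. -/
def L_30 : List (ℕ × ℕ) := [
  (2851, 3156), (2852, 2304), (2854, 1572), (2863, 2160), (2869, 2640), (2881, 3132),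
  (2884, 1344), (2891, 3600), (2907, 4500), (2916, 2304), (2918, 1864), (2922, 2332),
  (2930, 2176), (2943, 3712), (2946, 2100), (2952, 2160), (2953, 2448), (2955, 4480)]

theorem n_30 : NPL L_30 := by
  obtain ⟨h1, h2, h3, h4, h5, h6, h7, h8, h9, h10, h11, h12, h13, h14, h15, h16, h17, h18, h19, h20, h21, h22⟩ := c_30
  refine NPL_cons (np_run h1 (by decide))
    (NPL_cons (np_run h2 (by decide))
    (NPL_cons (np_run h3 (by decide))
    (NPL_cons (np_run h4 (by decide))
    (NPL_cons (np_run h5 (by decide))
    (NPL_cons (np_run h6 (by decide))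
    (NPL_cons (np_run h7 (by decide))
    (NPL_cons (np_fin (by decide) (inv_beg h8) h9)
    (NPL_cons (np_fin (by decide) (inv_beg h10) h11)
    (NPL_cons (np_run h12 (by decide))
    (NPL_cons (np_run h13 (by decide))
    (NPL_cons (np_run h14 (by decide))
    (NPL_cons (np_run h15 (by decide))
    (NPL_cons (np_fin (by decide) (inv_beg h16) h17)
    (NPL_cons (np_run h18 (by decide))
    (NPL_cons (np_run h19 (by decide))
    (NPL_cons (np_run h20 (by decide))
    (NPL_cons (np_fin (by decide) (inv_beg h21) h22) NPL_nil)))))))))))))))))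

/-- Pairs treated in `C31.lean`. -/
def L_31 : List (ℕ × ℕ) := [
  (2960, 2112), (2964, 2176), (2967, 4620), (2998, 1152), (3002, 2292), (3019, 3044),
  (3023, 3280), (3040, 1512), (3051, 4176), (3059, 3876), (3060, 2256), (3062, 2160),
  (3064, 1344), (3065, 4522)]

theorem n_31 : NPL L_31 := by
  obtain ⟨h1, h2, h3, h4, h5, h6, h7, h8, h9, h10, h11, h12, h13, h14, h15, h16, h17, h18, h19, h20⟩ := c_31
  refine NPL_cons (np_run h1 (by decide))
    (NPL_cons (np_run h2 (by decide))
    (NPL_cons (np_fin (by decide) (inv_mid (inv_beg h3) h4) h5)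
    (NPL_cons (np_run h6 (by decide))
    (NPL_cons (np_run h7 (by decide))
    (NPL_cons (np_run h8 (by decide))
    (NPL_cons (np_fin (by decide) (inv_beg h9) h10)
    (NPL_cons (np_run h11 (by decide))
    (NPL_cons (np_fin (by decide) (inv_beg h12) h13)
    (NPL_cons (np_fin (by decide) (inv_beg h14) h15)
    (NPL_cons (np_run h16 (by decide))
    (NPL_cons (np_run h17 (by decide))
    (NPL_cons (np_run h18 (by decide))
    (NPL_cons (np_fin (by decide) (inv_beg h19) h20) NPL_nil)))))))))))))

/-- Pairs treated in `C32.lean`. -/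
def L_32 : List (ℕ × ℕ) := [
  (3075, 4512), (3079, 2988), (3094, 1272), (3096, 2244), (3098, 1792), (3102, 2242),
  (3106, 1476), (3120, 2232), (3125, 4462), (3126, 2112), (3139, 2964), (3173, 3528),
  (3178, 1008), (3183, 3520), (3189, 4264), (3192, 1872), (3204, 2176), (3205, 2916)]

theorem n_32 : NPL L_32 := by
  obtain ⟨h1, h2, h3, h4, h5, h6, h7, h8, h9, h10, h11, h12, h13, h14, h15, h16, h17, h18, h19, h20, h21, h22, h23⟩ := c_32
  refine NPL_cons (np_fin (by decide) (inv_beg h1) h2)
    (NPL_cons (np_run h3 (by decide))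
    (NPL_cons (np_run h4 (by decide))
    (NPL_cons (np_run h5 (by decide))
    (NPL_cons (np_run h6 (by decide))
    (NPL_cons (np_run h7 (by decide))
    (NPL_cons (np_run h8 (by decide))
    (NPL_cons (np_run h9 (by decide))
    (NPL_cons (np_fin (by decide) (inv_beg h10) h11)
    (NPL_cons (np_run h12 (by decide))
    (NPL_cons (np_run h13 (by decide))
    (NPL_cons (np_fin (by decide) (inv_beg h14) h15)
    (NPL_cons (np_run h16 (by decide))
    (NPL_cons (np_fin (by decide) (inv_beg h17) h18)
    (NPL_cons (np_fin (by decide) (inv_beg h19) h20)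
    (NPL_cons (np_run h21 (by decide))
    (NPL_cons (np_run h22 (by decide))
    (NPL_cons (np_run h23 (by decide)) NPL_nil)))))))))))))))))

/-- Pairs treated in `C33.lean`. -/
def L_33 : List (ℕ × ℕ) := [
  (3209, 4200), (3211, 2916), (3223, 2304), (3224, 2180), (3229, 2904), (3243, 3120),
  (3244, 1440), (3245, 4200), (3247, 2892), (3255, 3708), (3268, 1152), (3291, 4296),
  (3292, 1424), (3306, 2140), (3309, 3880)]

theorem n_33 : NPL L_33 := by
  obtain ⟨h1, h2, h3, h4, h5, h6, h7, h8, h9, h10, h11, h12, h13, h14, h15, h16, h17, h18, h19, h20⟩ := c_33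
  refine NPL_cons (np_fin (by decide) (inv_beg h1) h2)
    (NPL_cons (np_run h3 (by decide))
    (NPL_cons (np_run h4 (by decide))
    (NPL_cons (np_run h5 (by decide))
    (NPL_cons (np_run h6 (by decide))
    (NPL_cons (np_run h7 (by decide))
    (NPL_cons (np_run h8 (by decide))
    (NPL_cons (np_fin (by decide) (inv_beg h9) h10)
    (NPL_cons (np_run h11 (by decide))
    (NPL_cons (np_fin (by decide) (inv_beg h12) h13)
    (NPL_cons (np_run h14 (by decide))
    (NPL_cons (np_fin (by decide) (inv_beg h15) h16)
    (NPL_cons (np_run h17 (by decide))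
    (NPL_cons (np_run h18 (by decide))
    (NPL_cons (np_fin (by decide) (inv_beg h19) h20) NPL_nil))))))))))))))

/-- Pairs treated in `C34.lean`. -/
def L_34 : List (ℕ × ℕ) := [
  (3317, 4270), (3318, 1440), (3323, 3408), (3324, 1920), (3331, 2520), (3333, 3168),
  (3360, 1800), (3361, 2816), (3363, 3120), (3367, 2376), (3374, 1764), (3381, 3600),
  (3382, 1400), (3408, 1440), (3416, 1776), (3420, 2080), (3429, 4158), (3434, 1980),
  (3436, 1376)]

theorem n_34 : NPL L_34 := by
  obtain ⟨h1, h2, h3, h4, h5, h6, h7, h8, h9, h10, h11, h12, h13, h14, h15, h16, h17, h18, h19, h20, h21, h22, h23⟩ := c_34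
  refine NPL_cons (np_fin (by decide) (inv_beg h1) h2)
    (NPL_cons (np_run h3 (by decide))
    (NPL_cons (np_fin (by decide) (inv_beg h4) h5)
    (NPL_cons (np_run h6 (by decide))
    (NPL_cons (np_run h7 (by decide))
    (NPL_cons (np_run h8 (by decide))
    (NPL_cons (np_run h9 (by decide))
    (NPL_cons (np_run h10 (by decide))
    (NPL_cons (np_run h11 (by decide))
    (NPL_cons (np_run h12 (by decide))
    (NPL_cons (np_run h13 (by decide))
    (NPL_cons (np_fin (by decide) (inv_beg h14) h15)
    (NPL_cons (np_run h16 (by decide))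
    (NPL_cons (np_run h17 (by decide))
    (NPL_cons (np_run h18 (by decide))
    (NPL_cons (np_run h19 (by decide))
    (NPL_cons (np_fin (by decide) (inv_beg h20) h21)
    (NPL_cons (np_run h22 (by decide))
    (NPL_cons (np_run h23 (by decide)) NPL_nil))))))))))))))))))

/-- Pairs treated in `C35.lean`. -/
def L_35 : List (ℕ × ℕ) := [
  (3459, 4128), (3464, 2060), (3470, 1960), (3492, 2048), (3510, 2038), (3513, 3240),
  (3520, 1344), (3521, 3444), (3539, 4048), (3545, 3720), (3569, 4018), (3598, 864),
  (3618, 1584), (3619, 2268), (3623, 2880), (3631, 2636), (3642, 1972)]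

theorem n_35 : NPL L_35 := by
  obtain ⟨h1, h2, h3, h4, h5, h6, h7, h8, h9, h10, h11, h12, h13, h14, h15, h16, h17, h18, h19, h20, h21, h22, h23⟩ := c_35
  refine NPL_cons (np_fin (by decide) (inv_beg h1) h2)
    (NPL_cons (np_run h3 (by decide))
    (NPL_cons (np_run h4 (by decide))
    (NPL_cons (np_run h5 (by decide))
    (NPL_cons (np_run h6 (by decide))
    (NPL_cons (np_fin (by decide) (inv_beg h7) h8)
    (NPL_cons (np_run h9 (by decide))
    (NPL_cons (np_fin (by decide) (inv_beg h10) h11)
    (NPL_cons (np_fin (by decide) (inv_beg h12) h13)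
    (NPL_cons (np_fin (by decide) (inv_beg h14) h15)
    (NPL_cons (np_fin (by decide) (inv_beg h16) h17)
    (NPL_cons (np_run h18 (by decide))
    (NPL_cons (np_run h19 (by decide))
    (NPL_cons (np_run h20 (by decide))
    (NPL_cons (np_run h21 (by decide))
    (NPL_cons (np_run h22 (by decide))
    (NPL_cons (np_run h23 (by decide)) NPL_nil))))))))))))))))

/-- Pairs treated in `C36.lean`. -/
def L_36 : List (ℕ × ℕ) := [
  (3645, 3942), (3660, 1960), (3661, 1920), (3664, 1296), (3665, 3922), (3673, 2016),
  (3705, 3520), (3716, 1760), (3717, 3276), (3723, 3088), (3730, 1284), (3733, 2048),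
  (3738, 1200), (3742, 1280), (3744, 1860), (3746, 1792), (3749, 3480), (3756, 1912),
  (3787, 2160), (3790, 1260), (3792, 1728), (3797, 3552), (3799, 2520), (3803, 3024)]

theorem n_36 : NPL L_36 := by
  obtain ⟨h1, h2, h3, h4, h5, h6, h7, h8, h9, h10, h11, h12, h13, h14, h15, h16, h17, h18, h19, h20, h21, h22, h23, h24, h25, h26, h27, h28, h29, h30⟩ := c_36
  refine NPL_cons (np_fin (by decide) (inv_beg h1) h2)
    (NPL_cons (np_run h3 (by decide))
    (NPL_cons (np_run h4 (by decide))
    (NPL_cons (np_run h5 (by decide))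
    (NPL_cons (np_fin (by decide) (inv_beg h6) h7)
    (NPL_cons (np_run h8 (by decide))
    (NPL_cons (np_fin (by decide) (inv_beg h9) h10)
    (NPL_cons (np_run h11 (by decide))
    (NPL_cons (np_fin (by decide) (inv_beg h12) h13)
    (NPL_cons (np_run h14 (by decide))
    (NPL_cons (np_run h15 (by decide))
    (NPL_cons (np_run h16 (by decide))
    (NPL_cons (np_run h17 (by decide))
    (NPL_cons (np_run h18 (by decide))
    (NPL_cons (np_run h19 (by decide))
    (NPL_cons (np_run h20 (by decide))
    (NPL_cons (np_fin (by decide) (inv_beg h21) h22)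
    (NPL_cons (np_run h23 (by decide))
    (NPL_cons (np_run h24 (by decide))
    (NPL_cons (np_run h25 (by decide))
    (NPL_cons (np_run h26 (by decide))
    (NPL_cons (np_fin (by decide) (inv_beg h27) h28)
    (NPL_cons (np_run h29 (by decide))
    (NPL_cons (np_run h30 (by decide)) NPL_nil)))))))))))))))))))))))

/-- Pairs treated in `C37.lean`. -/
def L_37 : List (ℕ × ℕ) := [
  (3804, 1680), (3806, 1800), (3818, 1344), (3833, 3000), (3835, 2484), (3839, 3564),
  (3844, 1152), (3848, 1280), (3854, 1866), (3872, 1856), (3876, 1792), (3904, 1224),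
  (3909, 3384), (3913, 1680), (3919, 2444), (3922, 1104), (3924, 1824), (3934, 1008),
  (3969, 2760), (3974, 1656), (3975, 3612), (3985, 2400), (3987, 3312), (3997, 1944),
  (3998, 1432), (4009, 2384), (4016, 1656), (4017, 3570)]

theorem n_37 : NPL L_37 := by
  obtain ⟨h1, h2, h3, h4, h5, h6, h7, h8, h9, h10, h11, h12, h13, h14, h15, h16, h17, h18, h19, h20, h21, h22, h23, h24, h25, h26, h27, h28, h29, h30, h31, h32, h33⟩ := c_37
  refine NPL_cons (np_run h1 (by decide))
    (NPL_cons (np_run h2 (by decide))
    (NPL_cons (np_run h3 (by decide))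
    (NPL_cons (np_run h4 (by decide))
    (NPL_cons (np_run h5 (by decide))
    (NPL_cons (np_fin (by decide) (inv_beg h6) h7)
    (NPL_cons (np_run h8 (by decide))
    (NPL_cons (np_run h9 (by decide))
    (NPL_cons (np_run h10 (by decide))
    (NPL_cons (np_run h11 (by decide))
    (NPL_cons (np_run h12 (by decide))
    (NPL_cons (np_run h13 (by decide))
    (NPL_cons (np_fin (by decide) (inv_beg h14) h15)
    (NPL_cons (np_run h16 (by decide))
    (NPL_cons (np_run h17 (by decide))
    (NPL_cons (np_run h18 (by decide))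
    (NPL_cons (np_run h19 (by decide))
    (NPL_cons (np_run h20 (by decide))
    (NPL_cons (np_run h21 (by decide))
    (NPL_cons (np_run h22 (by decide))
    (NPL_cons (np_fin (by decide) (inv_beg h23) h24)
    (NPL_cons (np_run h25 (by decide))
    (NPL_cons (np_fin (by decide) (inv_beg h26) h27)
    (NPL_cons (np_run h28 (by decide))
    (NPL_cons (np_run h29 (by decide))
    (NPL_cons (np_run h30 (by decide))
    (NPL_cons (np_run h31 (by decide))
    (NPL_cons (np_fin (by decide) (inv_beg h32) h33) NPL_nil)))))))))))))))))))))))))))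

/-- Pairs treated in `C38.lean`. -/
def L_38 : List (ℕ × ℕ) := [
  (4019, 3444), (4020, 1776), (4038, 1400), (4043, 2832), (4056, 1764), (4057, 2120),
  (4063, 1840), (4086, 1632), (4091, 3216), (4107, 3422), (4119, 3468), (4132, 1152),
  (4139, 3448), (4147, 2160), (4148, 1344), (4161, 3256), (4162, 1140), (4166, 1624),
  (4168, 864), (4178, 1200), (4182, 1560), (4204, 1104), (4215, 3372), (4252, 1104), (4253, 2464)]

theorem n_38 : NPL L_38 := by
  obtain ⟨h1, h2, h3, h4, h5, h6, h7, h8, h9, h10, h11, h12, h13, h14, h15, h16, h17, h18, h19, h20, h21, h22, h23, h24, h25, h26, h27, h28, h29, h30, h31, h32⟩ := c_38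
  refine NPL_cons (np_fin (by decide) (inv_beg h1) h2)
    (NPL_cons (np_run h3 (by decide))
    (NPL_cons (np_run h4 (by decide))
    (NPL_cons (np_run h5 (by decide))
    (NPL_cons (np_run h6 (by decide))
    (NPL_cons (np_run h7 (by decide))
    (NPL_cons (np_run h8 (by decide))
    (NPL_cons (np_run h9 (by decide))
    (NPL_cons (np_fin (by decide) (inv_beg h10) h11)
    (NPL_cons (np_fin (by decide) (inv_beg h12) h13)
    (NPL_cons (np_fin (by decide) (inv_beg h14) h15)
    (NPL_cons (np_run h16 (by decide))
    (NPL_cons (np_fin (by decide) (inv_beg h17) h18)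
    (NPL_cons (np_run h19 (by decide))
    (NPL_cons (np_run h20 (by decide))
    (NPL_cons (np_fin (by decide) (inv_beg h21) h22)
    (NPL_cons (np_run h23 (by decide))
    (NPL_cons (np_run h24 (by decide))
    (NPL_cons (np_run h25 (by decide))
    (NPL_cons (np_run h26 (by decide))
    (NPL_cons (np_run h27 (by decide))
    (NPL_cons (np_run h28 (by decide))
    (NPL_cons (np_fin (by decide) (inv_beg h29) h30)
    (NPL_cons (np_run h31 (by decide))
    (NPL_cons (np_run h32 (by decide)) NPL_nil))))))))))))))))))))))))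

/-- Pairs treated in `C39.lean`. -/
def L_39 : List (ℕ × ℕ) := [
  (4254, 1666), (4267, 2160), (4272, 1656), (4274, 1656), (4275, 3312), (4282, 1008),
  (4291, 1872), (4292, 1632), (4294, 1080), (4296, 1644), (4298, 1104), (4323, 2608),
  (4328, 1296), (4336, 1080), (4347, 2772), (4359, 3228), (4364, 1440), (4368, 1056),
  (4369, 2016), (4375, 1728), (4405, 2120), (4412, 1584), (4413, 2520), (4414, 1012),
  (4417, 1800), (4422, 1582), (4424, 1344), (4438, 720), (4443, 2304), (4452, 1344),
  (4473, 2112), (4480, 864), (4483, 1584), (4487, 2652), (4488, 1200), (4502, 1542),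
  (4509, 3078), (4518, 1224), (4522, 864), (4527, 3060)]

theorem n_39 : NPL L_39 := by
  obtain ⟨h1, h2, h3, h4, h5, h6, h7, h8, h9, h10, h11, h12, h13, h14, h15, h16, h17, h18, h19, h20, h21, h22, h23, h24, h25, h26, h27, h28, h29, h30, h31, h32, h33, h34, h35, h36, h37, h38, h39, h40, h41, h42⟩ := c_39
  refine NPL_cons (np_run h1 (by decide))
    (NPL_cons (np_run h2 (by decide))
    (NPL_cons (np_run h3 (by decide))
    (NPL_cons (np_run h4 (by decide))
    (NPL_cons (np_fin (by decide) (inv_beg h5) h6)
    (NPL_cons (np_run h7 (by decide))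
    (NPL_cons (np_run h8 (by decide))
    (NPL_cons (np_run h9 (by decide))
    (NPL_cons (np_run h10 (by decide))
    (NPL_cons (np_run h11 (by decide))
    (NPL_cons (np_run h12 (by decide))
    (NPL_cons (np_run h13 (by decide))
    (NPL_cons (np_run h14 (by decide))
    (NPL_cons (np_run h15 (by decide))
    (NPL_cons (np_run h16 (by decide))
    (NPL_cons (np_fin (by decide) (inv_beg h17) h18)
    (NPL_cons (np_run h19 (by decide))
    (NPL_cons (np_run h20 (by decide))
    (NPL_cons (np_run h21 (by decide))
    (NPL_cons (np_run h22 (by decide))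
    (NPL_cons (np_run h23 (by decide))
    (NPL_cons (np_run h24 (by decide))
    (NPL_cons (np_run h25 (by decide))
    (NPL_cons (np_run h26 (by decide))
    (NPL_cons (np_run h27 (by decide))
    (NPL_cons (np_run h28 (by decide))
    (NPL_cons (np_run h29 (by decide))
    (NPL_cons (np_run h30 (by decide))
    (NPL_cons (np_run h31 (by decide))
    (NPL_cons (np_run h32 (by decide))
    (NPL_cons (np_run h33 (by decide))
    (NPL_cons (np_run h34 (by decide))
    (NPL_cons (np_run h35 (by decide))
    (NPL_cons (np_run h36 (by decide))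
    (NPL_cons (np_run h37 (by decide))
    (NPL_cons (np_run h38 (by decide))
    (NPL_cons (np_run h39 (by decide))
    (NPL_cons (np_run h40 (by decide))
    (NPL_cons (np_run h41 (by decide))
    (NPL_cons (np_run h42 (by decide)) NPL_nil)))))))))))))))))))))))))))))))))))))))

/-- Pairs treated in `C40.lean`. -/
def L_40 : List (ℕ × ℕ) := [
  (4535, 2940), (4539, 3048), (4541, 2760), (4544, 1520), (4547, 3040), (4548, 1152),
  (4556, 1512), (4571, 2580), (4575, 2860), (4583, 2400), (4590, 1498), (4592, 1272),
  (4595, 2880), (4597, 1992), (4607, 2700), (4625, 2962), (4629, 2680), (4634, 1260),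
  (4653, 2344), (4656, 1464), (4665, 2808), (4667, 2772), (4668, 1152), (4675, 1940),
  (4685, 2902)]

theorem n_40 : NPL L_40 := by
  obtain ⟨h1, h2, h3, h4, h5, h6, h7, h8, h9, h10, h11, h12, h13, h14, h15, h16, h17, h18, h19, h20, h21, h22, h23, h24, h25⟩ := c_40
  refine NPL_cons (np_run h1 (by decide))
    (NPL_cons (np_run h2 (by decide))
    (NPL_cons (np_run h3 (by decide))
    (NPL_cons (np_run h4 (by decide))
    (NPL_cons (np_run h5 (by decide))
    (NPL_cons (np_run h6 (by decide))
    (NPL_cons (np_run h7 (by decide))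
    (NPL_cons (np_run h8 (by decide))
    (NPL_cons (np_run h9 (by decide))
    (NPL_cons (np_run h10 (by decide))
    (NPL_cons (np_run h11 (by decide))
    (NPL_cons (np_run h12 (by decide))
    (NPL_cons (np_run h13 (by decide))
    (NPL_cons (np_run h14 (by decide))
    (NPL_cons (np_run h15 (by decide))
    (NPL_cons (np_run h16 (by decide))
    (NPL_cons (np_run h17 (by decide))
    (NPL_cons (np_run h18 (by decide))
    (NPL_cons (np_run h19 (by decide))
    (NPL_cons (np_run h20 (by decide))
    (NPL_cons (np_run h21 (by decide))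
    (NPL_cons (np_run h22 (by decide))
    (NPL_cons (np_run h23 (by decide))
    (NPL_cons (np_run h24 (by decide))
    (NPL_cons (np_run h25 (by decide)) NPL_nil))))))))))))))))))))))))

/-- Pairs treated in `C41.lean`. -/
def L_41 : List (ℕ × ℕ) := [
  (4688, 1120), (4692, 1440), (4695, 2620), (4696, 960), (4712, 1436), (4724, 1424),
  (4730, 1428), (4734, 1426), (4743, 2272), (4747, 1892), (4750, 840), (4751, 2836),
  (4753, 1296), (4760, 1200), (4764, 1408), (4768, 736), (4770, 1408), (4772, 1280),
  (4782, 1320), (4790, 1398), (4795, 1512), (4796, 1392), (4798, 720), (4799, 2788),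
  (4834, 864), (4835, 2752), (4838, 1000), (4840, 912), (4844, 1176), (4848, 1088), (4852, 864),
  (4862, 1288), (4864, 904), (4869, 2718), (4880, 1352), (4897, 1584), (4908, 1056),
  (4918, 704), (4922, 1260), (4923, 1920), (4931, 2656), (4942, 756), (4944, 1320),
  (4951, 1752), (4953, 1920), (4960, 864), (4962, 1200), (4981, 1560), (4983, 2080),
  (4984, 720), (4989, 2464), (4991, 2184), (4994, 1296), (4995, 2592), (4997, 2590)]

theorem n_41 : NPL L_41 := by
  obtain ⟨h1, h2, h3, h4, h5, h6, h7, h8, h9, h10, h11, h12, h13, h14, h15, h16, h17, h18, h19, h20, h21, h22, h23, h24, h25, h26, h27, h28, h29, h30, h31, h32, h33, h34, h35, h36, h37, h38, h39, h40, h41, h42, h43, h44, h45, h46, h47, h48, h49, h50, h51, h52, h53, h54, h55⟩ := c_41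
  refine NPL_cons (np_run h1 (by decide))
    (NPL_cons (np_run h2 (by decide))
    (NPL_cons (np_run h3 (by decide))
    (NPL_cons (np_run h4 (by decide))
    (NPL_cons (np_run h5 (by decide))
    (NPL_cons (np_run h6 (by decide))
    (NPL_cons (np_run h7 (by decide))
    (NPL_cons (np_run h8 (by decide))
    (NPL_cons (np_run h9 (by decide))
    (NPL_cons (np_run h10 (by decide))
    (NPL_cons (np_run h11 (by decide))
    (NPL_cons (np_run h12 (by decide))
    (NPL_cons (np_run h13 (by decide))
    (NPL_cons (np_run h14 (by decide))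
    (NPL_cons (np_run h15 (by decide))
    (NPL_cons (np_run h16 (by decide))
    (NPL_cons (np_run h17 (by decide))
    (NPL_cons (np_run h18 (by decide))
    (NPL_cons (np_run h19 (by decide))
    (NPL_cons (np_run h20 (by decide))
    (NPL_cons (np_run h21 (by decide))
    (NPL_cons (np_run h22 (by decide))
    (NPL_cons (np_run h23 (by decide))
    (NPL_cons (np_run h24 (by decide))
    (NPL_cons (np_run h25 (by decide))
    (NPL_cons (np_run h26 (by decide))
    (NPL_cons (np_run h27 (by decide))
    (NPL_cons (np_run h28 (by decide))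
    (NPL_cons (np_run h29 (by decide))
    (NPL_cons (np_run h30 (by decide))
    (NPL_cons (np_run h31 (by decide))
    (NPL_cons (np_run h32 (by decide))
    (NPL_cons (np_run h33 (by decide))
    (NPL_cons (np_run h34 (by decide))
    (NPL_cons (np_run h35 (by decide))
    (NPL_cons (np_run h36 (by decide))
    (NPL_cons (np_run h37 (by decide))
    (NPL_cons (np_run h38 (by decide))
    (NPL_cons (np_run h39 (by decide))
    (NPL_cons (np_run h40 (by decide))
    (NPL_cons (np_run h41 (by decide))
    (NPL_cons (np_run h42 (by decide))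
    (NPL_cons (np_run h43 (by decide))
    (NPL_cons (np_run h44 (by decide))
    (NPL_cons (np_run h45 (by decide))
    (NPL_cons (np_run h46 (by decide))
    (NPL_cons (np_run h47 (by decide))
    (NPL_cons (np_run h48 (by decide))
    (NPL_cons (np_run h49 (by decide))
    (NPL_cons (np_run h50 (by decide))
    (NPL_cons (np_run h51 (by decide))
    (NPL_cons (np_run h52 (by decide))
    (NPL_cons (np_run h53 (by decide))
    (NPL_cons (np_run h54 (by decide))
    (NPL_cons (np_run h55 (by decide)) NPL_nil))))))))))))))))))))))))))))))))))))))))))))))))))))))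

/-- Pairs treated in `C42.lean`. -/
def L_42 : List (ℕ × ℕ) := [
  (5007, 2464), (5009, 2578), (5013, 2040), (5015, 2460), (5026, 720), (5029, 1704),
  (5030, 1278), (5042, 1188), (5067, 2520), (5074, 836), (5076, 1248), (5099, 2340),
  (5104, 792), (5108, 960), (5124, 960), (5131, 1296), (5134, 816), (5139, 2340), (5146, 720),
  (5150, 1144), (5166, 1032), (5176, 792), (5179, 1440), (5181, 2296), (5182, 800),
  (5191, 1472), (5192, 1196), (5193, 1912), (5210, 1120), (5213, 1800), (5219, 2244),
  (5220, 1152), (5222, 936), (5223, 1680), (5233, 1248), (5237, 2350), (5247, 2340),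
  (5253, 1864), (5257, 1296), (5263, 1200), (5270, 1080), (5276, 1088), (5279, 2308),
  (5282, 1152), (5292, 960), (5295, 2292), (5304, 1140), (5329, 1500), (5337, 2250),
  (5342, 1122), (5349, 2238), (5351, 2236), (5367, 2220)]

theorem n_42 : NPL L_42 := by
  obtain ⟨h1, h2, h3, h4, h5, h6, h7, h8, h9, h10, h11, h12, h13, h14, h15, h16, h17, h18, h19, h20, h21, h22, h23, h24, h25, h26, h27, h28, h29, h30, h31, h32, h33, h34, h35, h36, h37, h38, h39, h40, h41, h42, h43, h44, h45, h46, h47, h48, h49, h50, h51, h52, h53⟩ := c_42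
  refine NPL_cons (np_run h1 (by decide))
    (NPL_cons (np_run h2 (by decide))
    (NPL_cons (np_run h3 (by decide))
    (NPL_cons (np_run h4 (by decide))
    (NPL_cons (np_run h5 (by decide))
    (NPL_cons (np_run h6 (by decide))
    (NPL_cons (np_run h7 (by decide))
    (NPL_cons (np_run h8 (by decide))
    (NPL_cons (np_run h9 (by decide))
    (NPL_cons (np_run h10 (by decide))
    (NPL_cons (np_run h11 (by decide))
    (NPL_cons (np_run h12 (by decide))
    (NPL_cons (np_run h13 (by decide))
    (NPL_cons (np_run h14 (by decide))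
    (NPL_cons (np_run h15 (by decide))
    (NPL_cons (np_run h16 (by decide))
    (NPL_cons (np_run h17 (by decide))
    (NPL_cons (np_run h18 (by decide))
    (NPL_cons (np_run h19 (by decide))
    (NPL_cons (np_run h20 (by decide))
    (NPL_cons (np_run h21 (by decide))
    (NPL_cons (np_run h22 (by decide))
    (NPL_cons (np_run h23 (by decide))
    (NPL_cons (np_run h24 (by decide))
    (NPL_cons (np_run h25 (by decide))
    (NPL_cons (np_run h26 (by decide))
    (NPL_cons (np_run h27 (by decide))
    (NPL_cons (np_run h28 (by decide))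
    (NPL_cons (np_run h29 (by decide))
    (NPL_cons (np_run h30 (by decide))
    (NPL_cons (np_run h31 (by decide))
    (NPL_cons (np_run h32 (by decide))
    (NPL_cons (np_run h33 (by decide))
    (NPL_cons (np_run h34 (by decide))
    (NPL_cons (np_run h35 (by decide))
    (NPL_cons (np_run h36 (by decide))
    (NPL_cons (np_run h37 (by decide))
    (NPL_cons (np_run h38 (by decide))
    (NPL_cons (np_run h39 (by decide))
    (NPL_cons (np_run h40 (by decide))
    (NPL_cons (np_run h41 (by decide))
    (NPL_cons (np_run h42 (by decide))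
    (NPL_cons (np_run h43 (by decide))
    (NPL_cons (np_run h44 (by decide))
    (NPL_cons (np_run h45 (by decide))
    (NPL_cons (np_run h46 (by decide))
    (NPL_cons (np_run h47 (by decide))
    (NPL_cons (np_run h48 (by decide))
    (NPL_cons (np_run h49 (by decide))
    (NPL_cons (np_run h50 (by decide))
    (NPL_cons (np_run h51 (by decide))
    (NPL_cons (np_run h52 (by decide))
    (NPL_cons (np_run h53 (by decide)) NPL_nil))))))))))))))))))))))))))))))))))))))))))))))))))))

/-- Pairs treated in `C43.lean`. -/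
def L_43 : List (ℕ × ℕ) := [
  (5369, 1896), (5380, 704), (5386, 732), (5388, 800), (5391, 2028), (5394, 1096), (5408, 864),
  (5411, 1860), (5421, 1960), (5443, 960), (5445, 2142), (5451, 2136), (5455, 1404),
  (5462, 1062), (5464, 696), (5476, 640), (5482, 648), (5488, 480), (5495, 1584), (5497, 1280),
  (5511, 1980), (5520, 920), (5527, 1368), (5528, 816), (5534, 936), (5542, 600), (5547, 1872),
  (5556, 1008), (5558, 672), (5560, 624), (5563, 1080), (5576, 1004), (5583, 1600), (5584, 664),
  (5595, 1992), (5618, 784), (5626, 648), (5641, 1160), (5642, 828), (5644, 648), (5701, 1152),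
  (5731, 1236), (5736, 924), (5750, 918), (5761, 1008), (5765, 1822), (5795, 1620), (5796, 768),
  (5802, 828), (5811, 1776), (5812, 576), (5817, 1320), (5818, 464), (5839, 1040), (5840, 792),
  (5883, 1200), (5894, 660), (5904, 840), (5910, 838), (5915, 1428), (5929, 936), (5941, 1080),
  (5944, 544), (5965, 1080), (5993, 1120), (6004, 480), (6007, 960), (6010, 524), (6022, 504),
  (6027, 1332), (6028, 384), (6031, 1032), (6040, 504), (6042, 772), (6043, 816), (6055, 864),
  (6057, 1530), (6058, 384), (6075, 1408), (6097, 840), (6098, 592), (6100, 480), (6103, 720),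
  (6104, 624), (6106, 432), (6117, 1470), (6126, 672), (6137, 1450), (6138, 560), (6142, 480),
  (6171, 1296), (6187, 932), (6191, 1260), (6193, 720), (6210, 624), (6215, 1372), (6220, 432),
  (6224, 600), (6231, 1276), (6235, 800), (6240, 672), (6252, 664), (6255, 1260), (6270, 658),
  (6272, 552), (6275, 1200), (6284, 648), (6287, 1300), (6293, 864), (6302, 642), (6325, 840),
  (6327, 1152), (6345, 1120), (6348, 480), (6349, 696), (6357, 1230), (6361, 816), (6363, 840),
  (6364, 384), (6365, 1222), (6367, 720), (6371, 1216), (6392, 528), (6409, 780), (6417, 1170),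
  (6425, 1162), (6438, 440), (6440, 480), (6445, 756), (6454, 324), (6455, 1020), (6457, 672),
  (6463, 600), (6480, 552), (6483, 768), (6492, 544), (6493, 576), (6505, 684), (6514, 356),
  (6518, 424), (6525, 1062), (6527, 1060), (6531, 900), (6532, 320), (6540, 520), (6543, 720),
  (6547, 692), (6550, 344), (6560, 512), (6567, 1020), (6572, 504), (6592, 328), (6599, 924),
  (6607, 648), (6611, 976), (6619, 576), (6622, 264), (6623, 768), (6625, 636), (6640, 312),
  (6643, 432), (6648, 368), (6662, 462), (6674, 456), (6677, 910), (6685, 504), (6689, 840),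
  (6720, 360), (6725, 862), (6730, 240), (6744, 420), (6754, 276), (6779, 808), (6796, 240),
  (6816, 384), (6849, 738), (6876, 352), (6883, 368), (6903, 544), (6907, 452), (6927, 660),
  (6928, 160), (6929, 658), (6932, 320), (6938, 240), (6951, 504), (6968, 240), (6972, 240),
  (6975, 612), (6977, 552), (6978, 240), (6983, 440), (6994, 180), (7000, 168), (7002, 292),
  (7018, 144), (7020, 280), (7025, 562), (7039, 360), (7058, 208), (7064, 260), (7070, 216),
  (7072, 168), (7073, 408), (7076, 256), (7092, 240), (7093, 240), (7098, 168), (7102, 162),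
  (7103, 384), (7105, 264), (7112, 192), (7129, 288), (7133, 288), (7146, 192), (7169, 418),
  (7171, 276), (7207, 252), (7208, 144), (7212, 184), (7216, 120), (7225, 220), (7238, 120),
  (7273, 144), (7275, 312), (7277, 310), (7279, 204), (7284, 144), (7289, 264), (7296, 144),
  (7325, 262), (7329, 216), (7334, 126), (7341, 216), (7347, 240), (7360, 72), (7362, 112),
  (7375, 140), (7381, 132), (7396, 64), (7405, 120), (7406, 72), (7413, 120), (7414, 56),
  (7415, 172), (7417, 108), (7418, 64), (7435, 96), (7441, 84), (7451, 136), (7455, 108),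
  (7458, 48), (7478, 40), (7491, 96), (7492, 32), (7512, 36), (7514, 36), (7529, 58),
  (7532, 24), (7540, 16), (7568, 8)]

theorem n_43 : NPL L_43 := by
  obtain ⟨h1, h2, h3, h4, h5, h6, h7, h8, h9, h10, h11, h12, h13, h14, h15, h16, h17, h18, h19, h20, h21, h22, h23, h24, h25, h26, h27, h28, h29, h30, h31, h32, h33, h34, h35, h36, h37, h38, h39, h40, h41, h42, h43, h44, h45, h46, h47, h48, h49, h50, h51, h52, h53, h54, h55, h56, h57, h58, h59, h60, h61, h62, h63, h64, h65, h66, h67, h68, h69, h70, h71, h72, h73, h74, h75, h76, h77, h78, h79, h80, h81, h82, h83, h84, h85, h86, h87, h88, h89, h90, h91, h92, h93, h94, h95, h96, h97, h98, h99, h100, h101, h102, h103, h104, h105, h106, h107, h108, h109, h110, h111, h112, h113, h114, h115, h116, h117, h118, h119, h120, h121, h122, h123, h124, h125, h126, h127, h128, h129, h130, h131, h132, h133, h134, h135, h136, h137, h138, h139, h140, h141, h142, h143, h144, h145, h146, h147, h148, h149, h150, h151, h152, h153, h154, h155, h156, h157, h158, h159, h160, h161, h162, h163, h164, h165,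 h166, h167, h168, h169, h170, h171, h172, h173, h174, h175, h176, h177, h178, h179, h180, h181, h182, h183, h184, h185, h186, h187, h188, h189, h190, h191, h192, h193, h194, h195, h196, h197, h198, h199, h200, h201, h202, h203, h204, h205, h206, h207, h208, h209, h210, h211, h212, h213, h214, h215, h216, h217, h218, h219, h220, h221, h222, h223, h224, h225, h226, h227, h228, h229, h230, h231, h232, h233, h234, h235, h236, h237, h238, h239, h240, h241, h242, h243, h244, h245, h246, h247, h248, h249, h250, h251, h252, h253, h254, h255, h256, h257, h258, h259, h260, h261⟩ := c_43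
  refine NPL_cons (np_run h1 (by decide))
    (NPL_cons (np_run h2 (by decide))
    (NPL_cons (np_run h3 (by decide))
    (NPL_cons (np_run h4 (by decide))
    (NPL_cons (np_run h5 (by decide))
    (NPL_cons (np_run h6 (by decide))
    (NPL_cons (np_run h7 (by decide))
    (NPL_cons (np_run h8 (by decide))
    (NPL_cons (np_run h9 (by decide))
    (NPL_cons (np_run h10 (by decide))
    (NPL_cons (np_run h11 (by decide))
    (NPL_cons (np_run h12 (by decide))
    (NPL_cons (np_run h13 (by decide))
    (NPL_cons (np_run h14 (by decide))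
    (NPL_cons (np_run h15 (by decide))
    (NPL_cons (np_run h16 (by decide))
    (NPL_cons (np_run h17 (by decide))
    (NPL_cons (np_run h18 (by decide))
    (NPL_cons (np_run h19 (by decide))
    (NPL_cons (np_run h20 (by decide))
    (NPL_cons (np_run h21 (by decide))
    (NPL_cons (np_run h22 (by decide))
    (NPL_cons (np_run h23 (by decide))
    (NPL_cons (np_run h24 (by decide))
    (NPL_cons (np_run h25 (by decide))
    (NPL_cons (np_run h26 (by decide))
    (NPL_cons (np_run h27 (by decide))
    (NPL_cons (np_run h28 (by decide))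
    (NPL_cons (np_run h29 (by decide))
    (NPL_cons (np_run h30 (by decide))
    (NPL_cons (np_run h31 (by decide))
    (NPL_cons (np_run h32 (by decide))
    (NPL_cons (np_run h33 (by decide))
    (NPL_cons (np_run h34 (by decide))
    (NPL_cons (np_run h35 (by decide))
    (NPL_cons (np_run h36 (by decide))
    (NPL_cons (np_run h37 (by decide))
    (NPL_cons (np_run h38 (by decide))
    (NPL_cons (np_run h39 (by decide))
    (NPL_cons (np_run h40 (by decide))
    (NPL_cons (np_run h41 (by decide))
    (NPL_cons (np_run h42 (by decide))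
    (NPL_cons (np_run h43 (by decide))
    (NPL_cons (np_run h44 (by decide))
    (NPL_cons (np_run h45 (by decide))
    (NPL_cons (np_run h46 (by decide))
    (NPL_cons (np_run h47 (by decide))
    (NPL_cons (np_run h48 (by decide))
    (NPL_cons (np_run h49 (by decide))
    (NPL_cons (np_run h50 (by decide))
    (NPL_cons (np_run h51 (by decide))
    (NPL_cons (np_run h52 (by decide))
    (NPL_cons (np_run h53 (by decide))
    (NPL_cons (np_run h54 (by decide))
    (NPL_cons (np_run h55 (by decide))
    (NPL_cons (np_run h56 (by decide))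
    (NPL_cons (np_run h57 (by decide))
    (NPL_cons (np_run h58 (by decide))
    (NPL_cons (np_run h59 (by decide))
    (NPL_cons (np_run h60 (by decide))
    (NPL_cons (np_run h61 (by decide))
    (NPL_cons (np_run h62 (by decide))
    (NPL_cons (np_run h63 (by decide))
    (NPL_cons (np_run h64 (by decide))
    (NPL_cons (np_run h65 (by decide))
    (NPL_cons (np_run h66 (by decide))
    (NPL_cons (np_run h67 (by decide))
    (NPL_cons (np_run h68 (by decide))
    (NPL_cons (np_run h69 (by decide))
    (NPL_cons (np_run h70 (by decide))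
    (NPL_cons (np_run h71 (by decide))
    (NPL_cons (np_run h72 (by decide))
    (NPL_cons (np_run h73 (by decide))
    (NPL_cons (np_run h74 (by decide))
    (NPL_cons (np_run h75 (by decide))
    (NPL_cons (np_run h76 (by decide))
    (NPL_cons (np_run h77 (by decide))
    (NPL_cons (np_run h78 (by decide))
    (NPL_cons (np_run h79 (by decide))
    (NPL_cons (np_run h80 (by decide))
    (NPL_cons (np_run h81 (by decide))
    (NPL_cons (np_run h82 (by decide))
    (NPL_cons (np_run h83 (by decide))
    (NPL_cons (np_run h84 (by decide))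
    (NPL_cons (np_run h85 (by decide))
    (NPL_cons (np_run h86 (by decide))
    (NPL_cons (np_run h87 (by decide))
    (NPL_cons (np_run h88 (by decide))
    (NPL_cons (np_run h89 (by decide))
    (NPL_cons (np_run h90 (by decide))
    (NPL_cons (np_run h91 (by decide))
    (NPL_cons (np_run h92 (by decide))
    (NPL_cons (np_run h93 (by decide))
    (NPL_cons (np_run h94 (by decide))
    (NPL_cons (np_run h95 (by decide))
    (NPL_cons (np_run h96 (by decide))
    (NPL_cons (np_run h97 (by decide))
    (NPL_cons (np_run h98 (by decide))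
    (NPL_cons (np_run h99 (by decide))
    (NPL_cons (np_run h100 (by decide))
    (NPL_cons (np_run h101 (by decide))
    (NPL_cons (np_run h102 (by decide))
    (NPL_cons (np_run h103 (by decide))
    (NPL_cons (np_run h104 (by decide))
    (NPL_cons (np_run h105 (by decide))
    (NPL_cons (np_run h106 (by decide))
    (NPL_cons (np_run h107 (by decide))
    (NPL_cons (np_run h108 (by decide))
    (NPL_cons (np_run h109 (by decide))
    (NPL_cons (np_run h110 (by decide))
    (NPL_cons (np_run h111 (by decide))
    (NPL_cons (np_run h112 (by decide))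
    (NPL_cons (np_run h113 (by decide))
    (NPL_cons (np_run h114 (by decide))
    (NPL_cons (np_run h115 (by decide))
    (NPL_cons (np_run h116 (by decide))
    (NPL_cons (np_run h117 (by decide))
    (NPL_cons (np_run h118 (by decide))
    (NPL_cons (np_run h119 (by decide))
    (NPL_cons (np_run h120 (by decide))
    (NPL_cons (np_run h121 (by decide))
    (NPL_cons (np_run h122 (by decide))
    (NPL_cons (np_run h123 (by decide))
    (NPL_cons (np_run h124 (by decide))
    (NPL_cons (np_run h125 (by decide))
    (NPL_cons (np_run h126 (by decide))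
    (NPL_cons (np_run h127 (by decide))
    (NPL_cons (np_run h128 (by decide))
    (NPL_cons (np_run h129 (by decide))
    (NPL_cons (np_run h130 (by decide))
    (NPL_cons (np_run h131 (by decide))
    (NPL_cons (np_run h132 (by decide))
    (NPL_cons (np_run h133 (by decide))
    (NPL_cons (np_run h134 (by decide))
    (NPL_cons (np_run h135 (by decide))
    (NPL_cons (np_run h136 (by decide))
    (NPL_cons (np_run h137 (by decide))
    (NPL_cons (np_run h138 (by decide))
    (NPL_cons (np_run h139 (by decide))
    (NPL_cons (np_run h140 (by decide))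
    (NPL_cons (np_run h141 (by decide))
    (NPL_cons (np_run h142 (by decide))
    (NPL_cons (np_run h143 (by decide))
    (NPL_cons (np_run h144 (by decide))
    (NPL_cons (np_run h145 (by decide))
    (NPL_cons (np_run h146 (by decide))
    (NPL_cons (np_run h147 (by decide))
    (NPL_cons (np_run h148 (by decide))
    (NPL_cons (np_run h149 (by decide))
    (NPL_cons (np_run h150 (by decide))
    (NPL_cons (np_run h151 (by decide))
    (NPL_cons (np_run h152 (by decide))
    (NPL_cons (np_run h153 (by decide))
    (NPL_cons (np_run h154 (by decide))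
    (NPL_cons (np_run h155 (by decide))
    (NPL_cons (np_run h156 (by decide))
    (NPL_cons (np_run h157 (by decide))
    (NPL_cons (np_run h158 (by decide))
    (NPL_cons (np_run h159 (by decide))
    (NPL_cons (np_run h160 (by decide))
    (NPL_cons (np_run h161 (by decide))
    (NPL_cons (np_run h162 (by decide))
    (NPL_cons (np_run h163 (by decide))
    (NPL_cons (np_run h164 (by decide))
    (NPL_cons (np_run h165 (by decide))
    (NPL_cons (np_run h166 (by decide))
    (NPL_cons (np_run h167 (by decide))
    (NPL_cons (np_run h168 (by decide))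
    (NPL_cons (np_run h169 (by decide))
    (NPL_cons (np_run h170 (by decide))
    (NPL_cons (np_run h171 (by decide))
    (NPL_cons (np_run h172 (by decide))
    (NPL_cons (np_run h173 (by decide))
    (NPL_cons (np_run h174 (by decide))
    (NPL_cons (np_run h175 (by decide))
    (NPL_cons (np_run h176 (by decide))
    (NPL_cons (np_run h177 (by decide))
    (NPL_cons (np_run h178 (by decide))
    (NPL_cons (np_run h179 (by decide))
    (NPL_cons (np_run h180 (by decide))
    (NPL_cons (np_run h181 (by decide))
    (NPL_cons (np_run h182 (by decide))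
    (NPL_cons (np_run h183 (by decide))
    (NPL_cons (np_run h184 (by decide))
    (NPL_cons (np_run h185 (by decide))
    (NPL_cons (np_run h186 (by decide))
    (NPL_cons (np_run h187 (by decide))
    (NPL_cons (np_run h188 (by decide))
    (NPL_cons (np_run h189 (by decide))
    (NPL_cons (np_run h190 (by decide))
    (NPL_cons (np_run h191 (by decide))
    (NPL_cons (np_run h192 (by decide))
    (NPL_cons (np_run h193 (by decide))
    (NPL_cons (np_run h194 (by decide))
    (NPL_cons (np_run h195 (by decide))
    (NPL_cons (np_run h196 (by decide))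
    (NPL_cons (np_run h197 (by decide))
    (NPL_cons (np_run h198 (by decide))
    (NPL_cons (np_run h199 (by decide))
    (NPL_cons (np_run h200 (by decide))
    (NPL_cons (np_run h201 (by decide))
    (NPL_cons (np_run h202 (by decide))
    (NPL_cons (np_run h203 (by decide))
    (NPL_cons (np_run h204 (by decide))
    (NPL_cons (np_run h205 (by decide))
    (NPL_cons (np_run h206 (by decide))
    (NPL_cons (np_run h207 (by decide))
    (NPL_cons (np_run h208 (by decide))
    (NPL_cons (np_run h209 (by decide))
    (NPL_cons (np_run h210 (by decide))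
    (NPL_cons (np_run h211 (by decide))
    (NPL_cons (np_run h212 (by decide))
    (NPL_cons (np_run h213 (by decide))
    (NPL_cons (np_run h214 (by decide))
    (NPL_cons (np_run h215 (by decide))
    (NPL_cons (np_run h216 (by decide))
    (NPL_cons (np_run h217 (by decide))
    (NPL_cons (np_run h218 (by decide))
    (NPL_cons (np_run h219 (by decide))
    (NPL_cons (np_run h220 (by decide))
    (NPL_cons (np_run h221 (by decide))
    (NPL_cons (np_run h222 (by decide))
    (NPL_cons (np_run h223 (by decide))
    (NPL_cons (np_run h224 (by decide))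
    (NPL_cons (np_run h225 (by decide))
    (NPL_cons (np_run h226 (by decide))
    (NPL_cons (np_run h227 (by decide))
    (NPL_cons (np_run h228 (by decide))
    (NPL_cons (np_run h229 (by decide))
    (NPL_cons (np_run h230 (by decide))
    (NPL_cons (np_run h231 (by decide))
    (NPL_cons (np_run h232 (by decide))
    (NPL_cons (np_run h233 (by decide))
    (NPL_cons (np_run h234 (by decide))
    (NPL_cons (np_run h235 (by decide))
    (NPL_cons (np_run h236 (by decide))
    (NPL_cons (np_run h237 (by decide))
    (NPL_cons (np_run h238 (by decide))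
    (NPL_cons (np_run h239 (by decide))
    (NPL_cons (np_run h240 (by decide))
    (NPL_cons (np_run h241 (by decide))
    (NPL_cons (np_run h242 (by decide))
    (NPL_cons (np_run h243 (by decide))
    (NPL_cons (np_run h244 (by decide))
    (NPL_cons (np_run h245 (by decide))
    (NPL_cons (np_run h246 (by decide))
    (NPL_cons (np_run h247 (by decide))
    (NPL_cons (np_run h248 (by decide))
    (NPL_cons (np_run h249 (by decide))
    (NPL_cons (np_run h250 (by decide))
    (NPL_cons (np_run h251 (by decide))
    (NPL_cons (np_run h252 (by decide))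
    (NPL_cons (np_run h253 (by decide))
    (NPL_cons (np_run h254 (by decide))
    (NPL_cons (np_run h255 (by decide))
    (NPL_cons (np_run h256 (by decide))
    (NPL_cons (np_run h257 (by decide))
    (NPL_cons (np_run h258 (by decide))
    (NPL_cons (np_run h259 (by decide))
    (NPL_cons (np_run h260 (by decide))
    (NPL_cons (np_run h261 (by decide)) NPL_nil))))))))))))))))))))))))))))))))))))))))))))))))))))))))))))))))))))))))))))))))))))))))))))))))))))))))))))))))))))))))))))))))))))))))))))))))))))))))))))))))))))))))))))))))))))))))))))))))))))))))))))))))))))))))))))))))))))))))))))))))))))))))))))))))))))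

/-- All pairs settled by Fermat tests. -/
def fer : List (ℕ × ℕ) :=
  L_01 ++ (L_02 ++ (L_03 ++ (L_04 ++ (L_05 ++ (L_06 ++ (L_07 ++ (L_08 ++ (L_09 ++ (L_10 ++ (L_11 ++ (L_12 ++ (L_13 ++ (L_14 ++ (L_15 ++ (L_16 ++ (L_17 ++ (L_18 ++ (L_19 ++ (L_20 ++ (L_21 ++ (L_22 ++ (L_23 ++ (L_24 ++ (L_25 ++ (L_26 ++ (L_27 ++ (L_28 ++ (L_29 ++ (L_30 ++ (L_31 ++ (L_32 ++ (L_33 ++ (L_34 ++ (L_35 ++ (L_36 ++ (L_37 ++ (L_38 ++ (L_39 ++ (L_40 ++ (L_41 ++ (L_42 ++ L_43)))))))))))))))))))))))))))))))))))))))))

theorem fer_np : NPL fer :=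
  NPL_append n_01 (NPL_append n_02 (NPL_append n_03 (NPL_append n_04 (NPL_append n_05 (NPL_append n_06 (NPL_append n_07 (NPL_append n_08 (NPL_append n_09 (NPL_append n_10 (NPL_append n_11 (NPL_append n_12 (NPL_append n_13 (NPL_append n_14 (NPL_append n_15 (NPL_append n_16 (NPL_append n_17 (NPL_append n_18 (NPL_append n_19 (NPL_append n_20 (NPL_append n_21 (NPL_append n_22 (NPL_append n_23 (NPL_append n_24 (NPL_append n_25 (NPL_append n_26 (NPL_append n_27 (NPL_append n_28 (NPL_append n_29 (NPL_append n_30 (NPL_append n_31 (NPL_append n_32 (NPL_append n_33 (NPL_append n_34 (NPL_append n_35 (NPL_append n_36 (NPL_append n_37 (NPL_append n_38 (NPL_append n_39 (NPL_append n_40 (NPL_append n_41 (NPL_append n_42 n_43)))))))))))))))))))))))))))))))))))))))))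

end Pool.Agent.Helper97.P18
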