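import Pool.Agent.Helper97.P18.Core
import Mathlib.FieldTheory.Finite.Basic
import Mathlib.Data.Nat.Totient

/-!
Soundness of the base-2 Fermat tests of `Core.lean`.
-/

namespace Pool.Agent.Helper97.P18

theorem F_eq (x : ℕ) (f : ℕ → ℕ) : F x f = f x := by cases x <;> rfl

theorem sq_step {N a x m : ℕ} (h : a ≡ x ^ m [MOD N]) : sq N a ≡ x ^ (m * 2) [MOD N] := by
  have h1 : sq N a ≡ a ^ 2 [MOD N] := Nat.mod_modEq _ _
  refine h1.trans ?_
  rw [pow_mul]
  exact h.pow 2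

theorem sq13_modEq (N x : ℕ) : sq13 N x ≡ x ^ 8192 [MOD N] := by
  have h0 : x ≡ x ^ 1 [MOD N] := by rw [pow_one]
  have := sq_step (sq_step (sq_step (sq_step (sq_step (sq_step (sq_step (sq_step (sq_step
    (sq_step (sq_step (sq_step (sq_step h0))))))))))))
  norm_num at this
  exact this

theorem go_zero (E N acc : ℕ) : go E N 0 acc = acc := rfl

theorem go_succ (E N j acc : ℕ) :
    go E N (j + 1) acc = go E N j ((sq13 N acc <<< (8191 &&& (E >>> (13 * j)))) % N) := by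
  show F _ _ = _
  rw [F_eq]
  rfl

theorem go_modEq (E N i acc : ℕ) :
    go E N i acc ≡ acc ^ (2 ^ (13 * i)) * 2 ^ (E % 2 ^ (13 * i)) [MOD N] := by
  induction i generalizing acc with
  | zero => rw [go_zero]; simp [Nat.mod_one]; rfl
  | succ j ih =>
    rw [go_succ]
    refine (ih _).trans ?_
    have hb : 8191 &&& (E >>> (13 * j)) = (E / 2 ^ (13 * j)) % 2 ^ 13 := by
      rw [Nat.shiftRight_eq_div_pow, Nat.and_comm]
      exact Nat.and_two_pow_sub_one_eq_mod _ 13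
    have hE : E % 2 ^ (13 * (j + 1)) =
        E % 2 ^ (13 * j) + 2 ^ (13 * j) * ((E / 2 ^ (13 * j)) % 2 ^ 13) := by
      rw [mul_add, mul_one, pow_add, Nat.mod_mul]
    rw [hb, hE, Nat.shiftLeft_eq]
    set w := (E / 2 ^ (13 * j)) % 2 ^ 13 with hw
    have h3 : ((sq13 N acc * 2 ^ w) % N) ≡ acc ^ 8192 * 2 ^ w [MOD N] :=
      (Nat.mod_modEq _ _).trans ((sq13_modEq N acc).mul_right _)
    refine ((h3.pow (2 ^ (13 * j))).mul_right _).trans ?_
    rw [mul_pow, ← pow_mul, ← pow_mul]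
    have h4 : 8192 * 2 ^ (13 * j) = 2 ^ (13 * (j + 1)) := by
      rw [mul_add, mul_one, pow_add]; norm_num [mul_comm]
    rw [h4, pow_add 2 (E % 2 ^ (13 * j)), mul_comm w (2 ^ (13 * j))]
    rw [mul_assoc, mul_comm (2 ^ (2 ^ (13 * j) * w)) (2 ^ (E % 2 ^ (13 * j)))]

theorem go_lt (E N i acc : ℕ) (hN : 0 < N) : go E N (i + 1) acc < N := by
  induction i generalizing acc with
  | zero => rw [go_succ, go_zero]; exact Nat.mod_lt _ hN
  | succ j ih => rw [go_succ]; exact ih _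

theorem NN_eq (k e : ℕ) : NN k e = k * (k + 1) ^ e + 1 := rfl

theorem part_eq (k e jhi a jlo : ℕ) :
    part k e jhi a jlo = go ((k * (k + 1) ^ e) >>> (13 * jlo)) (k * (k + 1) ^ e + 1) (jhi - jlo) a := by
  unfold part
  rw [F_eq]
  rfl

/-- Invariant of the computation. -/
def Inv (k e j a : ℕ) : Prop :=
  2 ^ ((k * (k + 1) ^ e) >>> (13 * j)) ≡ a [MOD (k * (k + 1) ^ e + 1)]

theorem inv_top {k e D : ℕ} (h : top k e D = true) : Inv k e D 1 := by
  unfold top at h
  have h1 : (k * (k + 1) ^ e) >>> (13 * D) = 0 := Nat.eq_of_beq_eq_true h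
  unfold Inv
  rw [h1, pow_zero]

theorem inv_part {k e jhi a jlo : ℕ} (hj : jlo ≤ jhi) (h : Inv k e jhi a) :
    Inv k e jlo (part k e jhi a jlo) := by
  rw [part_eq]
  unfold Inv at *
  set E0 := k * (k + 1) ^ e
  set E := E0 >>> (13 * jlo) with hE
  set i := jhi - jlo with hi
  refine Nat.ModEq.symm ((go_modEq E (E0 + 1) i a).trans ?_)
  have h1 : a ^ 2 ^ (13 * i) ≡ (2 ^ (E0 >>> (13 * jhi))) ^ 2 ^ (13 * i) [MOD E0 + 1] :=
    (h.symm).pow _
  refine (h1.mul_right _).trans ?_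
  have h2 : E0 >>> (13 * jhi) = E / 2 ^ (13 * i) := by
    have : 13 * jhi = 13 * jlo + 13 * i := by omega
    rw [this, Nat.shiftRight_add, ← hE, Nat.shiftRight_eq_div_pow E]
  rw [h2, ← pow_mul, ← pow_add]
  have h3 : E / 2 ^ (13 * i) * 2 ^ (13 * i) + E % 2 ^ (13 * i) = E := Nat.div_add_mod' _ _
  rw [h3]

theorem inv_mid {k e jhi a jlo b : ℕ} (h : Inv k e jhi a) (hm : mid k e jhi a jlo b = true) :
    Inv k e jlo b := by
  unfold mid at hm
  rw [Bool.and_eq_true] at hm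
  have h1 : jlo ≤ jhi := Nat.le_of_ble_eq_true hm.1
  have h2 : part k e jhi a jlo = b := Nat.eq_of_beq_eq_true hm.2
  rw [← h2]
  exact inv_part h1 h

theorem inv_beg {k e D jlo b : ℕ} (hm : beg k e D jlo b = true) : Inv k e jlo b := by
  unfold beg at hm
  rw [Bool.and_eq_true] at hm
  exact inv_mid (inv_top hm.1) hm.2

/-- `k * (k+1)^e + 1` is not prime. -/
def NP (k e : ℕ) : Prop := ¬ (k * (k + 1) ^ e + 1).Prime

theorem np_fin {k e jhi a : ℕ} (hk : 1 < k) (h : Inv k e jhi a) (hf : fin k e jhi a = true) :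
    NP k e := by
  intro hp
  unfold fin at hf
  rw [Bool.and_eq_true] at hf
  have hj : 1 ≤ jhi := Nat.le_of_ble_eq_true hf.1
  have h1 := inv_part (Nat.zero_le jhi) h
  have hlt : part k e jhi a 0 < k * (k + 1) ^ e + 1 := by
    rw [part_eq]
    obtain ⟨m, hm⟩ : ∃ m, jhi - 0 = m + 1 := ⟨jhi - 1, by omega⟩
    rw [hm]
    exact go_lt _ _ _ _ (Nat.succ_pos _)
  unfold Inv at h1
  rw [mul_zero, Nat.shiftRight_zero] at h1
  set E := k * (k + 1) ^ e with hE
  have hpow : 0 < (k + 1) ^ e := by positivity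
  have h3 : 2 < E + 1 := by
    have : 2 ≤ k * (k + 1) ^ e := le_trans hk (Nat.le_mul_of_pos_right k hpow)
    omega
  have hcop : Nat.Coprime 2 (E + 1) := by
    rw [Nat.coprime_primes Nat.prime_two hp]; omega
  have h2 : 2 ^ E ≡ 1 [MOD (E + 1)] := by
    have := Nat.ModEq.pow_totient hcop
    rwa [Nat.totient_prime hp] at this
  have h4 : part k e jhi a 0 ≡ 1 [MOD (E + 1)] := h1.symm.trans h2
  unfold Nat.ModEq at h4
  rw [Nat.mod_eq_of_lt hlt, Nat.mod_eq_of_lt (by omega : 1 < E + 1)] at h4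
  have h5 := hf.2
  rw [h4] at h5
  exact absurd h5 (by decide)

theorem np_run {k e D : ℕ} (h : run k e D = true) (hk : 1 < k) : NP k e := by
  unfold run at h
  rw [Bool.and_eq_true] at h
  exact np_fin hk (inv_top h.1) h.2

/-- All pairs of the list give composite numbers. -/
def NPL (L : List (ℕ × ℕ)) : Prop := ∀ p ∈ L, NP p.1 p.2

theorem NPL_nil : NPL [] := by intro p hp; simp at hp

theorem NPL_cons {k e : ℕ} {L : List (ℕ × ℕ)} (h : NP k e) (hL : NPL L) : NPL ((k, e) :: L) := by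
  intro p hp
  rcases List.mem_cons.mp hp with h1 | h1
  · rw [h1]; exact h
  · exact hL p h1

theorem NPL_append {L M : List (ℕ × ℕ)} (hL : NPL L) (hM : NPL M) : NPL (L ++ M) := by
  intro p hp
  rcases List.mem_append.mp hp with h1 | h1
  · exact hL p h1
  · exact hM p h1

/-- Divisibility certificate. -/
def divOK (k e p : ℕ) : Bool :=
  Nat.ble 2 p && Nat.ble (Nat.succ p) (NN k e) && Nat.beq (Nat.mod (NN k e) p) 0

theorem not_prime_of_divOK {k e p : ℕ} (h : divOK k e p = true) : NP k e := by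
  unfold divOK at h
  rw [Bool.and_eq_true, Bool.and_eq_true] at h
  obtain ⟨⟨h1, h2⟩, h3⟩ := h
  have h1' : 2 ≤ p := Nat.le_of_ble_eq_true h1
  have h2' : p < NN k e := Nat.le_of_ble_eq_true h2
  have h3' : NN k e % p = 0 := Nat.eq_of_beq_eq_true h3
  rw [NN_eq] at h2' h3'
  exact Nat.not_prime_of_dvd_of_lt (Nat.dvd_of_mod_eq_zero h3') h1' h2'

end Pool.Agent.Helper97.P18
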