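/-!
Kernel-friendly base-2 Fermat tests for numbers of the form `k * (k+1)^e + 1`.
The exponent is processed in base `2^13 = 8192`; long computations can be cut into parts.
-/

namespace Pool.Agent.Helper97.P18

/-- Apply `f` to `x`, forcing the evaluation of `x` first (kernel reduction). -/
def F (x : Nat) (f : Nat → Nat) : Nat := Nat.casesOn x (f 0) (fun y => f (Nat.succ y))

/-- Squaring modulo `N`. -/
def sq (N x : Nat) : Nat := Nat.mod (Nat.pow x 2) N

/-- Thirteen squarings modulo `N`. -/
def sq13 (N x : Nat) : Nat :=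
  sq N (sq N (sq N (sq N (sq N (sq N (sq N (sq N (sq N (sq N (sq N (sq N (sq N x))))))))))))

/-- `go E N i acc` is `acc^(2^(13*i)) * 2^(E mod 2^(13*i))` modulo `N`. -/
def go (E N : Nat) (i : Nat) : Nat → Nat :=
  Nat.rec (motive := fun _ => Nat → Nat) (fun acc => acc)
    (fun j ih acc => F (Nat.mod (Nat.shiftLeft (sq13 N acc)
      (Nat.land 8191 (Nat.shiftRight E (Nat.mul 13 j)))) N) ih) i

/-- The number under test, `k * (k+1)^e + 1`. -/
def NN (k e : Nat) : Nat := Nat.succ (Nat.mul k (Nat.pow (Nat.succ k) e))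

/-- The part of the computation that treats the base-8192 digits `jhi - 1, ..., jlo` of the
exponent `NN k e - 1`, starting from the value `a`. -/
def part (k e jhi a jlo : Nat) : Nat :=
  F (NN k e) fun N => go (Nat.shiftRight (Nat.pred N) (Nat.mul 13 jlo)) N (Nat.sub jhi jlo) a

/-- `NN k e - 1` has at most `D` digits in base 8192. -/
def top (k e D : Nat) : Bool :=
  Nat.beq (Nat.shiftRight (Nat.pred (NN k e)) (Nat.mul 13 D)) 0

/-- Middle part of a test. -/
def mid (k e jhi a jlo b : Nat) : Bool :=
  and (Nat.ble jlo jhi) (Nat.beq (part k e jhi a jlo) b)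

/-- First part of a test. -/
def beg (k e D jlo b : Nat) : Bool :=
  and (top k e D) (mid k e D 1 jlo b)

/-- Last part of a test. -/
def fin (k e jhi a : Nat) : Bool :=
  and (Nat.ble 1 jhi) (not (Nat.beq (part k e jhi a 0) 1))

/-- A whole test. -/
def run (k e D : Nat) : Bool :=
  and (top k e D) (fin k e D 1)

end Pool.Agent.Helper97.P18
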