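import Pool.Agent.Helper97.P18.Base
import Mathlib.Data.Nat.Prime.Basic
import Mathlib.Data.Nat.Totient

namespace Pool.Agent.Helper97.P18

/-- `m`-th 13-bit digit of `A`. -/
def dig (A m : ℕ) : ℕ := Nat.land 8191 (Nat.shiftRight A (Nat.mul 13 m))

/-- trial division starting at `d` -/
def trialAux : ℕ → ℕ → ℕ → Bool
  | 0, _, _ => false
  | f + 1, d, p => cond (Nat.ble (Nat.succ p) (Nat.mul d d)) true
      (cond (Nat.beq (Nat.mod p d) 0) false (trialAux f (Nat.succ d) p))

theorem prime_of_trialAux (f d p : ℕ) (h : trialAux f d p = true) (hp : 2 ≤ p)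
    (hd : ∀ x, 2 ≤ x → x < d → ¬ x ∣ p) : p.Prime := by
  induction f generalizing d with
  | zero => simp [trialAux] at h
  | succ f ih =>
    rw [trialAux] at h
    by_cases h1 : Nat.ble (Nat.succ p) (Nat.mul d d) = true
    · have h2 : p < d * d := Nat.le_of_ble_eq_true h1
      rw [Nat.prime_def_le_sqrt]
      refine ⟨hp, fun m hm hm2 => ?_⟩
      have h3 : m * m ≤ p := Nat.le_sqrt.mp hm2
      refine hd m hm ?_
      by_contra hc
      have : d * d ≤ m * m := Nat.mul_le_mul (by omega) (by omega)
      omega
    · rw [Bool.not_eq_true] at h1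
      rw [h1, cond_false] at h
      by_cases h4 : Nat.beq (Nat.mod p d) 0 = true
      · rw [h4, cond_true] at h; exact absurd h (by decide)
      · rw [Bool.not_eq_true] at h4
        rw [h4, cond_false] at h
        refine ih (Nat.succ d) h ?_
        intro x hx hx2
        rcases Nat.lt_succ_iff_lt_or_eq.mp hx2 with h5 | h5
        · exact hd x hx h5
        · subst h5
          intro hdvd
          have h6 : p % x = 0 := Nat.mod_eq_zero_of_dvd hdvd
          have h7 : Nat.beq (Nat.mod p x) 0 = true := by
            show Nat.beq (p % x) 0 = true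
            rw [h6]; rfl
          rw [h7] at h4
          exact absurd h4 (by decide)

/-- one line of the totient table -/
def chkTot (T L m : ℕ) : Bool :=
  (fun p : ℕ => (fun q : ℕ =>
    Nat.beq (Nat.mul p q) m && (Nat.ble 2 p && (trialAux 100 2 p &&
      Nat.beq (dig T m) (cond (Nat.beq (Nat.mod q p) 0) (Nat.mul p (dig T q))
        (Nat.mul (Nat.pred p) (dig T q)))))) (Nat.div m p)) (dig L m)

theorem tot_eq (T L n : ℕ) (h1 : dig T 1 = 1)
    (h : (List.range' 2 (n - 2)).all (chkTot T L) = true) :
    ∀ m, 1 ≤ m → m < n → dig T m = Nat.totient m := by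
  intro m
  induction m using Nat.strong_induction_on with
  | _ m ih =>
    intro hm hmn
    rcases Nat.lt_or_ge m 2 with h2 | h2
    · have : m = 1 := by omega
      subst this
      rw [h1, Nat.totient_one]
    · have hmem : m ∈ List.range' 2 (n - 2) := by
        rw [List.mem_range'_1]; omega
      have h3 := List.all_eq_true.mp h m hmem
      unfold chkTot at h3
      simp only at h3
      set p := dig L m with hp
      set q := Nat.div m p with hq
      rw [Bool.and_eq_true, Bool.and_eq_true, Bool.and_eq_true] at h3
      obtain ⟨h4, h5, h6, h7⟩ := h3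
      have h4' : p * q = m := Nat.eq_of_beq_eq_true h4
      have h5' : 2 ≤ p := Nat.le_of_ble_eq_true h5
      have h7' := Nat.eq_of_beq_eq_true h7
      have hprime : p.Prime := prime_of_trialAux 100 2 p h6 h5' (by intro x hx hx2; omega)
      have hq1 : 1 ≤ q := by
        rcases Nat.eq_zero_or_pos q with h8 | h8
        · rw [h8, mul_zero] at h4'; omega
        · exact h8
      have hqm : q < m := by
        rw [← h4']
        nlinarith
      have ihq := ih q hqm hq1 (by omega)
      rw [h7', ihq]
      by_cases h8 : Nat.beq (Nat.mod q p) 0 = true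
      · rw [h8, cond_true]
        have h9 : q % p = 0 := Nat.eq_of_beq_eq_true h8
        rw [← h4', Nat.totient_mul_of_prime_of_dvd hprime (Nat.dvd_of_mod_eq_zero h9)]
        rfl
      · rw [Bool.not_eq_true] at h8
        rw [h8, cond_false]
        have h9 : ¬ p ∣ q := by
          intro hd
          have h10 : q % p = 0 := Nat.mod_eq_zero_of_dvd hd
          have h11 : Nat.beq (Nat.mod q p) 0 = true := by
            show Nat.beq (q % p) 0 = true
            rw [h10]; rfl
          rw [h11] at h8
          exact absurd h8 (by decide)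
        rw [← h4', Nat.totient_mul_of_prime_of_not_dvd hprime h9]
        rfl

/-- the first entry of the list is `(k, e)` -/
def chkHead (k e : ℕ) : List (ℕ × ℕ) → Bool
  | [] => false
  | f :: _ => Nat.beq f.1 k && Nat.beq f.2 e

/-- Walk through all `k`, using divisor certificates `ps` (0 = use the Fermat list `fs`). -/
def chkAll (T n : ℕ) : ℕ → List ℕ → List (ℕ × ℕ) → Bool
  | k, [], _ => Nat.ble n k
  | k, p :: ps, fs => cond (Nat.beq p 0)
      (chkHead k (dig T (Nat.sub n k)) fs && chkAll T n (Nat.succ k) ps fs.tail)
      (divOK k (dig T (Nat.sub n k)) p && chkAll T n (Nat.succ k) ps fs)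

theorem chkAll_spec (T n : ℕ) (ps : List ℕ) : ∀ (k : ℕ) (fs : List (ℕ × ℕ)),
    chkAll T n k ps fs = true → ∀ j, k ≤ j → j < n →
      (∃ p, divOK j (dig T (n - j)) p = true) ∨ (j, dig T (n - j)) ∈ fs := by
  induction ps with
  | nil =>
    intro k fs h j hj hjn
    have : n ≤ k := Nat.le_of_ble_eq_true (by simpa [chkAll] using h)
    omega
  | cons p ps ih =>
    intro k fs h j hj hjn
    rw [chkAll] at h
    by_cases hp : Nat.beq p 0 = true
    · rw [hp, cond_true] at h
      cases fs with
      | nil => simp [chkHead] at h
      | cons f fs' =>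
        simp only [chkHead, Bool.and_eq_true, List.tail_cons] at h
        obtain ⟨⟨h1, h2⟩, h3⟩ := h
        have h1' : f.1 = k := Nat.eq_of_beq_eq_true h1
        have h2' : f.2 = dig T (n - k) := Nat.eq_of_beq_eq_true h2
        rcases Nat.eq_or_lt_of_le hj with h4 | h4
        · subst h4
          right
          rw [← h2', List.mem_cons]
          left
          ext
          · exact h1'.symm
          · rfl
        · rcases ih (Nat.succ k) fs' h3 j h4 hjn with h5 | h5
          · exact Or.inl h5
          · exact Or.inr (List.mem_cons_of_mem _ h5)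
    · rw [Bool.not_eq_true] at hp
      rw [hp, cond_false, Bool.and_eq_true] at h
      rcases Nat.eq_or_lt_of_le hj with h4 | h4
      · subst h4
        exact Or.inl ⟨p, h.1⟩
      · exact ih (Nat.succ k) fs h.2 j h4 hjn

end Pool.Agent.Helper97.P18
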